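import Pool.Agent.H21.CG.Df
import Pool.Agent.H30.CP.Bins
import Pool.Agent.H21.SH.Sv

/-!
[H21 CG CELL]  The sharp sieve on cells: every cell contains exactly one prime with probability at least `1/20`.

Proof.  As `blk_quarter` in `Pool/Agent/H21/QT/Bq.lean` (sharp sieve `sieve2`, shift by `B`, `bq_par`, `key`) with
the residue class modulo `L` treated as in `bins_nat`, `bins` (`Pool/Agent/H30/CP/Bins.lean`, `BinsZ.lean`: `killL`
instead of `kill`; the shift `B` is taken a multiple of `L`).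
PARAMETERS.  `e = 1/10000`, `τ = e/(m 2^l (l+1))`, `p = psv e τ l = e τ (l+2)^2/(4 bl l)`, `1 ≤ bl l ≤ 3/2`, so
`2^l p ≥ e^2 l/(6m) → ∞` and `p → 0` as `l → ∞` (`bq_par`; these lemmas are private: copy them).  Choose `l` with
`2^l p ≥ 1/8` and `p ≤ 1/1000`, and `s = ⌈1/(8p)⌉ ≤ 2^l`; then `1/8 ≤ s p ≤ 1/8 + 1/1000`, and `s` depends on `m` only.
`sieve2 e` for the `m s` elements of the cells with the constant parameters `τ`, `l`:
`2^l τ ≤ 1/2`, `∑ (l+1) τ = m s (l+1) τ ≤ m 2^l (l+1) τ = e`.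
MOMENTS.  `X_j N = #{x ∈ V j | N + x prime}` (after the shift): `E X_j ≥ (1-50e) s p`, and by `sieve2` with `S = {a'}`
(`E X_j (X_j - 1) ≤ s (s-1) 4 (1+50e)^2 p^2`).  For a natural number `X`: `1_{X = 1} ≥ X - X (X-1)`.  So
`μ(One) ≥ (1-50e)/8 - 4 (1+50e)^2 (1/8 + 1/1000)^2 ≥ 0.124 - 0.065 ≥ 1/20`.
The exactness (`PP N b`, `|b| ≤ D` implies `b ∈ V j` for some `j`) as in `blk_quarter`/`bins` by `killL`.
-/

namespace Pool.Agent.H21.CG

open Finset Pool.Agent.H30.CP Pool.Agent.H21.SH Pool.Agent.H21.MT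

private theorem cell_bl (l : ℕ) : 1 ≤ bl l ∧ bl l ≤ 3 / 2 := by
  unfold bl
  have h1 : (1 / 2 : ℝ) ^ (l + 1) ≤ (1 / 2 : ℝ) ^ 1 :=
    pow_le_pow_of_le_one (by norm_num) (by norm_num) (by omega)
  have h2 : (0 : ℝ) < (1 / 2 : ℝ) ^ (l + 1) := by positivity
  constructor <;> linarith

/-- parameters -/
private theorem cell_par (k : ℕ) (hk : 1 ≤ k) (e η : ℝ) (he : 0 < e) (he1 : e ≤ 1 / 100)
    (hη : 0 < η) : ∃ l₀ : ℕ, ∀ l : ℕ, l₀ ≤ l → ∃ τ : ℝ, 0 < τ ∧ (2 : ℝ) ^ l * τ ≤ 1 / 2 ∧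
      k * 2 ^ l * (((l : ℝ) + 1) * τ) = e ∧ 0 < psv e τ l ∧
      1 + 50 * e ≤ e * (2 ^ l * psv e τ l) ∧ k * ((1 + 50 * e) * psv e τ l) ≤ η := by
  have hk0 : (0 : ℝ) < k := by exact_mod_cast hk
  have hk1 : (1 : ℝ) ≤ k := by exact_mod_cast hk
  obtain ⟨l1, hl1⟩ := exists_nat_ge (12 * (k : ℝ) / e ^ 3)
  have hlim : Filter.Tendsto (fun n : ℕ => (n : ℝ) ^ 1 / (2 : ℝ) ^ n) Filter.atTop (nhds 0) :=
    tendsto_pow_const_div_const_pow_of_one_lt 1 (by norm_num)
  have h1 := hlim.eventually_lt_const (show (0 : ℝ) < η / 5 by positivity)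
  obtain ⟨l2, hl2⟩ := Filter.eventually_atTop.1 h1
  refine ⟨l1 + l2 + 1, fun l hl => ⟨e / (k * 2 ^ l * ((l : ℝ) + 1)), by positivity, ?_, ?_, ?_, ?_, ?_⟩⟩
  · have hl0 : (0 : ℝ) ≤ l := Nat.cast_nonneg l
    have h2 : (2 : ℝ) ^ l * (e / (k * 2 ^ l * ((l : ℝ) + 1))) = e / (k * ((l : ℝ) + 1)) := by
      field_simp
    rw [h2, div_le_iff₀ (by positivity)]
    nlinarith [mul_nonneg hk0.le hl0]
  · field_simp
  · obtain ⟨hb1, hb2⟩ := cell_bl l
    unfold psv
    have : 0 < bl l := by linarith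
    positivity
  · obtain ⟨hb1, hb2⟩ := cell_bl l
    have hb0 : 0 < bl l := by linarith
    have hll : (l1 : ℝ) ≤ l := by
      have : l1 ≤ l := by omega
      exact_mod_cast this
    have hl0 : (0 : ℝ) ≤ l := Nat.cast_nonneg l
    have h2 : e * (2 ^ l * psv e (e / (k * 2 ^ l * ((l : ℝ) + 1))) l) =
        e ^ 3 * ((l : ℝ) + 2) ^ 2 / (4 * bl l * k * ((l : ℝ) + 1)) := by
      unfold psv
      field_simp
    rw [h2, le_div_iff₀ (by positivity)]
    have h3 : 12 * (k : ℝ) ≤ l * e ^ 3 := by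
      rw [div_le_iff₀ (by positivity)] at hl1
      refine hl1.trans ?_
      exact mul_le_mul_of_nonneg_right hll (by positivity)
    calc (1 + 50 * e) * (4 * bl l * k * ((l : ℝ) + 1)) ≤
        2 * (4 * (3 / 2) * k * ((l : ℝ) + 1)) := by
          have : 1 + 50 * e ≤ 2 := by linarith
          gcongr
      _ = 12 * k * ((l : ℝ) + 1) := by ring
      _ ≤ l * e ^ 3 * ((l : ℝ) + 1) := by gcongr
      _ = e ^ 3 * (l * ((l : ℝ) + 1)) := by ring
      _ ≤ e ^ 3 * ((l : ℝ) + 2) ^ 2 := by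
          have : (l : ℝ) * ((l : ℝ) + 1) ≤ ((l : ℝ) + 2) ^ 2 := by nlinarith
          gcongr
  · obtain ⟨hb1, hb2⟩ := cell_bl l
    have hb0 : 0 < bl l := by linarith
    have hl1' : (1 : ℝ) ≤ l := by
      have : 1 ≤ l := by omega
      exact_mod_cast this
    have hl0 : (0 : ℝ) ≤ l := Nat.cast_nonneg l
    have h4 := hl2 l (by omega)
    rw [pow_one] at h4
    have h2 : k * ((1 + 50 * e) * psv e (e / (k * 2 ^ l * ((l : ℝ) + 1))) l) =
        (1 + 50 * e) * e ^ 2 * ((l : ℝ) + 2) ^ 2 / (4 * bl l * 2 ^ l * ((l : ℝ) + 1)) := by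
      unfold psv
      field_simp
    rw [h2]
    have h5 : (1 + 50 * e) * e ^ 2 * ((l : ℝ) + 2) ^ 2 / (4 * bl l * 2 ^ l * ((l : ℝ) + 1)) ≤
        5 * ((l : ℝ) / 2 ^ l) := by
      rw [← mul_div_assoc, div_le_div_iff₀ (by positivity) (by positivity)]
      have h6 : ((l : ℝ) + 2) ^ 2 ≤ 5 * l * ((l : ℝ) + 1) := by nlinarith
      have h7 : (1 + 50 * e) * e ^ 2 ≤ 4 := by nlinarith [sq_nonneg e]
      calc (1 + 50 * e) * e ^ 2 * ((l : ℝ) + 2) ^ 2 * 2 ^ l ≤
          4 * (5 * l * ((l : ℝ) + 1)) * 2 ^ l := by gcongr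
        _ = 5 * l * (4 * 1 * 2 ^ l * ((l : ℝ) + 1)) := by ring
        _ ≤ 5 * l * (4 * bl l * 2 ^ l * ((l : ℝ) + 1)) := by gcongr
    linarith

open Classical in
/-- second moment method in one cell -/
private theorem cell_block {α : Type} (T : Finset ℕ) (μ : ℕ → ℝ) (hμ : ∀ N, 0 ≤ μ N)
    (W : Finset α) (f : α → ℕ → Prop) (p : ℝ) (hp : 0 < p) (hs1 : 1 / 8 ≤ (W.card : ℝ) * p)
    (hs2 : (W.card : ℝ) * p ≤ 126 / 1000)
    (hlow : ∀ x ∈ W, 199 / 200 * p ≤ ∑ N ∈ T.filter (fun N => f x N), μ N)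
    (hup2 : ∀ x ∈ W, ∀ x' ∈ W, x ≠ x' →
      ∑ N ∈ T.filter (fun N => f x N ∧ f x' N), μ N ≤ 4 * (201 / 200) ^ 2 * p ^ 2) :
    1 / 20 ≤ ∑ N ∈ T.filter (fun N => ∃ x ∈ W, f x N ∧ ∀ x' ∈ W, f x' N → x' = x), μ N := by
  obtain ⟨g, hg⟩ : ∃ g : α → ℕ → ℝ, ∀ x N, g x N = if f x N then 1 else 0 := ⟨_, fun _ _ => rfl⟩
  obtain ⟨Y, hY⟩ : ∃ Y : ℕ → ℝ, ∀ N, Y N = ∑ x ∈ W, g x N := ⟨_, fun _ => rfl⟩
  -- pointwise
  have h1 : ∀ N ∈ T, μ N * (2 * Y N - Y N ^ 2) ≤
      (if ∃ x ∈ W, f x N ∧ ∀ x' ∈ W, f x' N → x' = x then μ N else 0) := by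
    intro N _
    have hc : Y N = ((W.filter (fun x => f x N)).card : ℝ) := by
      rw [hY, Finset.card_filter]
      push_cast
      exact Finset.sum_congr rfl fun x _ => hg x N
    obtain ⟨c, hcc⟩ : ∃ c : ℕ, c = (W.filter (fun x => f x N)).card := ⟨_, rfl⟩
    rw [← hcc] at hc
    rw [hc]
    by_cases h1 : c = 1
    · have h2 : ∃ x ∈ W, f x N ∧ ∀ x' ∈ W, f x' N → x' = x := by
        rw [h1] at hcc
        obtain ⟨x, hx⟩ := Finset.card_eq_one.1 hcc.symm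
        have h3 : x ∈ W.filter (fun x => f x N) := by
          rw [hx]
          exact Finset.mem_singleton_self x
        rw [Finset.mem_filter] at h3
        refine ⟨x, h3.1, h3.2, ?_⟩
        intro x' hx' hf'
        have h4 : x' ∈ W.filter (fun x => f x N) := Finset.mem_filter.2 ⟨hx', hf'⟩
        rw [hx] at h4
        exact Finset.mem_singleton.1 h4
      rw [if_pos h2, h1]
      norm_num
    · have h3 : 2 * (c : ℝ) - (c : ℝ) ^ 2 ≤ 0 := by
        rcases Nat.lt_or_ge c 1 with h4 | h4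
        · have h5 : c = 0 := by omega
          rw [h5]
          norm_num
        · have h5 : (2 : ℝ) ≤ c := by
            have : 2 ≤ c := by omega
            exact_mod_cast this
          nlinarith
      have h4 : μ N * (2 * (c : ℝ) - (c : ℝ) ^ 2) ≤ 0 :=
        mul_nonpos_of_nonneg_of_nonpos (hμ N) h3
      refine h4.trans ?_
      split_ifs
      · exact hμ N
      · exact le_rfl
  -- first moment
  have hE : ∀ x, ∑ N ∈ T, μ N * g x N = ∑ N ∈ T.filter (fun N => f x N), μ N := by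
    intro x
    rw [Finset.sum_filter]
    refine Finset.sum_congr rfl fun N _ => ?_
    rw [hg]
    split_ifs
    · rw [mul_one]
    · rw [mul_zero]
  have m1 : ∑ N ∈ T, μ N * Y N = ∑ x ∈ W, ∑ N ∈ T.filter (fun N => f x N), μ N := by
    have h2 : ∀ N ∈ T, μ N * Y N = ∑ x ∈ W, μ N * g x N := by
      intro N _
      rw [hY, Finset.mul_sum]
    rw [Finset.sum_congr rfl h2, Finset.sum_comm]
    exact Finset.sum_congr rfl fun x _ => hE x
  have m1' : 199 / 200 * ((W.card : ℝ) * p) ≤ ∑ N ∈ T, μ N * Y N := by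
    rw [m1]
    have h2 : ∑ _x ∈ W, 199 / 200 * p ≤ ∑ x ∈ W, ∑ N ∈ T.filter (fun N => f x N), μ N :=
      Finset.sum_le_sum hlow
    rw [Finset.sum_const, nsmul_eq_mul] at h2
    linarith
  -- second moment
  have m2 : ∑ N ∈ T, μ N * Y N ^ 2 ≤
      4 * (201 / 200) ^ 2 * ((W.card : ℝ) * p) ^ 2 + ∑ N ∈ T, μ N * Y N := by
    have h3 : ∑ N ∈ T, μ N * Y N ^ 2 =
        ∑ x ∈ W, ∑ x' ∈ W, ∑ N ∈ T, μ N * (g x N * g x' N) := by
      have h4 : ∀ N ∈ T, μ N * Y N ^ 2 = ∑ x ∈ W, ∑ x' ∈ W, μ N * (g x N * g x' N) := by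
        intro N _
        rw [hY, sq, Finset.sum_mul_sum, Finset.mul_sum]
        refine Finset.sum_congr rfl fun x _ => ?_
        rw [Finset.mul_sum]
      rw [Finset.sum_congr rfl h4, Finset.sum_comm]
      refine Finset.sum_congr rfl fun x _ => ?_
      rw [Finset.sum_comm]
    rw [h3]
    have h5 : ∀ x ∈ W, ∀ x' ∈ W, ∑ N ∈ T, μ N * (g x N * g x' N) ≤
        4 * (201 / 200) ^ 2 * p ^ 2 +
          (if x = x' then ∑ N ∈ T.filter (fun N => f x N), μ N else 0) := by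
      intro x hx x' hx'
      by_cases hxx : x = x'
      · subst hxx
        rw [if_pos rfl, ← hE x]
        have h6 : ∑ N ∈ T, μ N * (g x N * g x N) = ∑ N ∈ T, μ N * g x N := by
          refine Finset.sum_congr rfl fun N _ => ?_
          rw [hg]
          split_ifs <;> simp
        rw [h6]
        have h8 : 0 ≤ 4 * (201 / 200) ^ 2 * p ^ 2 := by positivity
        linarith
      · rw [if_neg hxx, add_zero]
        refine le_trans (le_of_eq ?_) (hup2 x hx x' hx' hxx)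
        rw [Finset.sum_filter]
        refine Finset.sum_congr rfl fun N _ => ?_
        rw [hg, hg]
        by_cases c1 : f x N <;> by_cases c2 : f x' N <;> simp [c1, c2]
    refine (Finset.sum_le_sum fun x hx => Finset.sum_le_sum fun x' hx' => h5 x hx x' hx').trans ?_
    have h6 : ∀ x ∈ W, ∑ x' ∈ W, (4 * (201 / 200) ^ 2 * p ^ 2 +
        (if x = x' then ∑ N ∈ T.filter (fun N => f x N), μ N else 0)) =
        (W.card : ℝ) * (4 * (201 / 200) ^ 2 * p ^ 2) +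
          ∑ N ∈ T.filter (fun N => f x N), μ N := by
      intro x hx
      rw [Finset.sum_add_distrib, Finset.sum_const, nsmul_eq_mul, Finset.sum_ite_eq, if_pos hx]
    rw [Finset.sum_congr rfl h6, Finset.sum_add_distrib, ← m1, Finset.sum_const, nsmul_eq_mul]
    apply le_of_eq
    ring
  rw [Finset.sum_filter]
  refine le_trans ?_ (Finset.sum_le_sum h1)
  have h4 : ∑ N ∈ T, μ N * (2 * Y N - Y N ^ 2) =
      2 * ∑ N ∈ T, μ N * Y N - ∑ N ∈ T, μ N * Y N ^ 2 := by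
    rw [Finset.mul_sum, ← Finset.sum_sub_distrib]
    refine Finset.sum_congr rfl fun N _ => ?_
    ring
  rw [h4]
  have h5 : ((W.card : ℝ) * p) ^ 2 ≤ (126 / 1000) ^ 2 :=
    pow_le_pow_left₀ (by linarith) hs2 2
  nlinarith

open Classical in
theorem cells (m : ℕ) (hm : 1 ≤ m) : ∃ s : ℕ, 1 ≤ s ∧ ∀ (ι : Type) [Fintype ι] [DecidableEq ι]
    (V : ι → Finset ℤ), Fintype.card ι = m → (∀ j, (V j).card = s) →
    (∀ i j, i ≠ j → Disjoint (V i) (V j)) →
    (∀ p : ℕ, p.Prime → ∃ a : ℤ, ∀ j, ∀ h ∈ V j, ¬ (p : ℤ) ∣ a + h) →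
    ∀ L c₀ : ℕ, 0 < L → (∀ j, ∀ h ∈ V j, (L : ℤ) ∣ h) → Nat.Coprime c₀ L → ∀ D N0 : ℕ,
    ∃ (T : Finset ℕ) (μ : ℕ → ℝ), (∀ N ∈ T, N0 < N ∧ N ≡ c₀ [MOD L] ∧
        ∀ b : ℤ, |b| ≤ D → PP N b → ∃ j, b ∈ V j) ∧
      (∀ N, 0 ≤ μ N) ∧ ∑ N ∈ T, μ N = 1 ∧
      ∀ j, 1 / 20 ≤ ∑ N ∈ T.filter (fun N => One N (V j)), μ N := by
  obtain ⟨l, hl⟩ := cell_par m hm (1 / 10000) (1 / 1000) (by norm_num) (by norm_num) (by norm_num)
  obtain ⟨τ, hτ0, hτ1, hτ2, hp0, hpL, hpk⟩ := hl l le_rfl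
  obtain ⟨p, hpdef⟩ : ∃ p, p = psv (1 / 10000) τ l := ⟨_, rfl⟩
  rw [← hpdef] at hp0 hpL hpk
  have hm1 : (1 : ℝ) ≤ m := by exact_mod_cast hm
  have hp1 : p ≤ 1 / 1000 := by
    have h1 : 1 * ((1 + 50 * (1 / 10000 : ℝ)) * p) ≤ m * ((1 + 50 * (1 / 10000)) * p) :=
      mul_le_mul_of_nonneg_right hm1 (by positivity)
    linarith
  have hpl : 1 / (8 * p) ≤ (2 : ℝ) ^ l := by
    rw [div_le_iff₀ (by positivity)]
    nlinarith
  refine ⟨⌈1 / (8 * p)⌉₊, Nat.one_le_iff_ne_zero.2 (Nat.ceil_pos.2 (by positivity)).ne', ?_⟩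
  intro ι _ _ V hcard hcV hdisj hadmV L c₀ hL hdvd hc₀ D N0
  obtain ⟨s, hsdef⟩ : ∃ s : ℕ, s = ⌈1 / (8 * p)⌉₊ := ⟨_, rfl⟩
  rw [← hsdef] at hcV
  have hs1 : 1 / 8 ≤ (s : ℝ) * p := by
    have h1 : 1 / (8 * p) ≤ (s : ℝ) := by
      rw [hsdef]
      exact Nat.le_ceil _
    have h2 : 1 / (8 * p) * p ≤ (s : ℝ) * p := mul_le_mul_of_nonneg_right h1 hp0.le
    have h3 : 1 / (8 * p) * p = 1 / 8 := by
      field_simp
    linarith
  have hs2 : (s : ℝ) * p ≤ 126 / 1000 := by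
    have h1 : (s : ℝ) ≤ 1 / (8 * p) + 1 := by
      rw [hsdef]
      exact (Nat.ceil_lt_add_one (by positivity)).le
    have h2 : (s : ℝ) * p ≤ (1 / (8 * p) + 1) * p := mul_le_mul_of_nonneg_right h1 hp0.le
    have h3 : (1 / (8 * p) + 1) * p = 1 / 8 + p := by
      field_simp
    linarith
  have hsl : (s : ℝ) ≤ 2 ^ l := by
    have h1 : s ≤ 2 ^ l := by
      rw [hsdef]
      apply Nat.ceil_le.2
      push_cast
      exact hpl
    exact_mod_cast h1
  have hspos : 0 < s := by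
    rw [hsdef]
    exact Nat.ceil_pos.2 (by positivity)
  set S : ℕ := L * (D + ∑ j, ∑ b ∈ V j, b.natAbs) with hS
  have hSD : D ≤ S := by
    rw [hS]
    exact le_trans (Nat.le_add_right _ _) (Nat.le_mul_of_pos_left _ hL)
  have hSb : ∀ j, ∀ b ∈ V j, b.natAbs ≤ S := by
    intro j b hb
    have h1 : b.natAbs ≤ ∑ b ∈ V j, b.natAbs :=
      Finset.single_le_sum (f := fun b : ℤ => b.natAbs) (fun _ _ => Nat.zero_le _) hb
    have h2 : ∑ b ∈ V j, b.natAbs ≤ ∑ j, ∑ b ∈ V j, b.natAbs :=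
      Finset.single_le_sum (f := fun j => ∑ b ∈ V j, b.natAbs) (fun _ _ => Nat.zero_le _)
        (Finset.mem_univ j)
    have h3 : D + ∑ j, ∑ b ∈ V j, b.natAbs ≤ S := by
      rw [hS]
      exact Nat.le_mul_of_pos_left _ hL
    omega
  have hLS : L ∣ S := ⟨_, rfl⟩
  have hnn : ∀ j, ∀ b ∈ V j, 0 ≤ b + S := by
    intro j b hb
    have := hSb j b hb
    omega
  let I : Type := Σ j : ι, {x // x ∈ V j}
  have : Fintype I := inferInstanceAs (Fintype (Σ j : ι, {x // x ∈ V j}))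
  have : DecidableEq I := inferInstanceAs (DecidableEq (Σ j : ι, {x // x ∈ V j}))
  have hιne : Nonempty ι := by
    rw [← Fintype.card_pos_iff, hcard]
    omega
  have hne : Nonempty I := by
    obtain ⟨j⟩ := hιne
    have h0 : (V j).Nonempty := by
      rw [← card_pos, hcV]
      exact hspos
    obtain ⟨a, ha⟩ := h0
    exact ⟨⟨j, ⟨a, ha⟩⟩⟩
  let h : I → ℕ := fun i => (i.2.val + (S : ℤ)).toNat
  have hh : ∀ i : I, (h i : ℤ) = i.2.val + S := fun i =>
    Int.toNat_of_nonneg (hnn i.1 i.2.val i.2.2)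
  have hinj : Function.Injective h := by
    rintro ⟨j, a, ha⟩ ⟨j', a', ha'⟩ hab
    have h1 := hh ⟨j, a, ha⟩
    have h2 := hh ⟨j', a', ha'⟩
    rw [hab] at h1
    have h3 : a = a' := by
      simp only at h1 h2
      omega
    subst h3
    have h4 : j = j' := by
      by_contra h5
      exact Finset.disjoint_left.1 (hdisj j j' h5) ha ha'
    subst h4
    rfl
  have hadm : ∀ q : ℕ, q.Prime → ∃ a : ℕ, ∀ i, ¬ q ∣ a + h i := by
    intro q hq
    obtain ⟨b, hb⟩ := hadmV q hq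
    have hq0 : (0 : ℤ) < q := by exact_mod_cast hq.pos
    refine ⟨((b - S) % (q : ℤ)).toNat, fun i hdv => ?_⟩
    apply hb i.1 i.2.val i.2.2
    have h1 : ((((b - S) % (q : ℤ)).toNat : ℕ) : ℤ) = (b - S) % (q : ℤ) :=
      Int.toNat_of_nonneg (Int.emod_nonneg _ hq0.ne')
    have h2 : (q : ℤ) ∣ ((((b - S) % (q : ℤ)).toNat + h i : ℕ) : ℤ) := by exact_mod_cast hdv
    rw [Nat.cast_add, h1, hh i] at h2
    have h3 : (q : ℤ) ∣ (b - S) - (b - S) % (q : ℤ) := Int.dvd_self_sub_emod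
    have h4 := dvd_add h2 h3
    have h5 : (b - S) % (q : ℤ) + (i.2.val + S) + ((b - S) - (b - S) % (q : ℤ)) =
        b + i.2.val := by ring
    rw [h5] at h4
    exact h4
  obtain ⟨Q, b₀, hQ, hLQ, hbL, hcopQ, hkill⟩ := killL L c₀ hL
    (Finset.range (2 * S + 1) \ (univ.image h)) (univ.image h) sdiff_disjoint (by
      intro a ha
      obtain ⟨i, _, rfl⟩ := mem_image.1 ha
      have h2 : (L : ℤ) ∣ ((h i : ℕ) : ℤ) := by
        rw [hh i]
        exact dvd_add (hdvd i.1 i.2.val i.2.2) (by exact_mod_cast hLS)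
      have h3 : L ∣ h i := by exact_mod_cast h2
      obtain ⟨t, ht⟩ := h3
      rw [ht]
      exact (Nat.coprime_add_mul_left_left c₀ L t).2 hc₀)
  have hcI : Fintype.card I = m * s := by
    have h1 : Fintype.card I = ∑ j : ι, Fintype.card {x // x ∈ V j} := by
      rw [← Fintype.card_sigma]
      convert rfl
    rw [h1]
    have h2 : ∀ j : ι, Fintype.card {x // x ∈ V j} = s := by
      intro j
      rw [Fintype.card_coe, hcV]
    rw [Finset.sum_congr rfl (fun j _ => h2 j), sum_const, card_univ, hcard, smul_eq_mul]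
  obtain ⟨T', μ', hT', hμ', hsum', hlow, hup⟩ := sieve2 (1 / 10000) (by norm_num) (by norm_num)
    h hinj hadm (fun _ => τ) (fun _ => l) (fun _ => hτ0) (fun _ => hτ1)
    (by
      rw [Finset.sum_const, Finset.card_univ, hcI, nsmul_eq_mul]
      push_cast
      rw [← hτ2]
      have h1 : (0 : ℝ) ≤ ((l : ℝ) + 1) * τ := by positivity
      have h2 : (m : ℝ) * s ≤ m * 2 ^ l := mul_le_mul_of_nonneg_left hsl (by linarith)
      exact mul_le_mul_of_nonneg_right h2 h1) Q b₀ hQ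
    (fun i => hcopQ _ (mem_image_of_mem h (mem_univ i))) (max N0 Q)
  simp only [← hpdef] at hlow hup
  have key : ∀ (N : ℕ) (i : I), PP (N + S) i.2.val ↔ (N + h i).Prime := fun N i =>
    PP_shift (hnn i.1 i.2.val i.2.2)
  have hup2 : ∀ i i' : I, i ≠ i' → ∑ N ∈ T'.filter (fun N => (N + h i).Prime ∧ (N + h i').Prime),
      μ' N ≤ 4 * (201 / 200) ^ 2 * p ^ 2 := by
    intro i i' hii
    have hm' : i ∉ ({i'} : Finset I) := by simpa using hii
    have h1 := hup i {i'} hm'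
    rw [prod_insert hm', prod_singleton, card_singleton] at h1
    have h2 : (1 + 50 * (1 / 10000 : ℝ)) ^ (1 + 1) * (4 * ((1 : ℕ) : ℝ)) ^ 1 * (p * p) =
        4 * (201 / 200) ^ 2 * p ^ 2 := by
      push_cast
      ring
    rw [h2] at h1
    refine le_trans (le_of_eq ?_) h1
    congr 1
    apply filter_congr
    intro N _
    simp
  refine ⟨T'.image (fun N => N + S), fun N => μ' (N - S), ?_, fun N => hμ' _, ?_, ?_⟩
  · intro N hN
    obtain ⟨N', hN', rfl⟩ := mem_image.1 hN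
    have hTN := hT' N' hN'
    have h2 : N0 ≤ max N0 Q := le_max_left _ _
    have h2' : Q ≤ max N0 Q := le_max_right _ _
    refine ⟨by omega, ?_, ?_⟩
    · have h3 : N' ≡ c₀ [MOD L] := (hTN.2.of_dvd hLQ).trans hbL
      have h4 : N' + S ≡ c₀ + 0 [MOD L] := h3.add ((Nat.modEq_zero_iff_dvd).2 hLS)
      simpa using h4
    · intro b hb hp
      have hb2 := abs_le.1 hb
      have hb0 : 0 ≤ b + S := by omega
      rw [PP_shift hb0] at hp
      by_cases hmem : (b + (S : ℤ)).toNat ∈ univ.image h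
      · obtain ⟨i, _, hi⟩ := mem_image.1 hmem
        have h3 := hh i
        rw [hi] at h3
        have h4 : b = i.2.val := by omega
        exact ⟨i.1, h4 ▸ i.2.2⟩
      · exfalso
        refine hkill N' (by omega) hTN.2 _ ?_ hp
        rw [mem_sdiff, mem_range]
        exact ⟨by omega, hmem⟩
  · rw [sum_image (fun a _ b _ hab => by
      have : a + S = b + S := hab
      omega)]
    simp only [Nat.add_sub_cancel]
    exact hsum'
  · intro j
    have h1 := cell_block T' μ' hμ' (V j) (fun x N => PP (N + S) x) p hp0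
      (by rw [hcV]; exact hs1) (by rw [hcV]; exact hs2) (by
        intro x hx
        have h2 := hlow ⟨j, ⟨x, hx⟩⟩
        have h3 : (1 - 50 * (1 / 10000 : ℝ)) * p = 199 / 200 * p := by ring
        rw [h3] at h2
        refine h2.trans (le_of_eq ?_)
        congr 1
        apply filter_congr
        intro N _
        exact (key N ⟨j, ⟨x, hx⟩⟩).symm) (by
        intro x hx x' hx' hxx
        have h2 := hup2 ⟨j, ⟨x, hx⟩⟩ ⟨j, ⟨x', hx'⟩⟩ (by
          intro h3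
          have h4 := eq_of_heq (Sigma.mk.inj_iff.1 h3).2
          exact hxx (congrArg Subtype.val h4))
        refine le_trans (le_of_eq ?_) h2
        congr 1
        apply filter_congr
        intro N _
        rw [key N ⟨j, ⟨x, hx⟩⟩, key N ⟨j, ⟨x', hx'⟩⟩])
    refine h1.trans (le_of_eq ?_)
    rw [sum_filter, sum_filter, sum_image (fun a _ b _ hab => by
      have : a + S = b + S := hab
      omega)]
    refine sum_congr rfl fun N _ => ?_
    simp only [Nat.add_sub_cancel]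
    have hdec : ∀ (p : Prop) (i1 i2 : Decidable p) (a b : ℝ),
        @ite ℝ p i1 a b = @ite ℝ p i2 a b := by
      intro p i1 i2 a b
      rw [Subsingleton.elim i1 i2]
    exact hdec _ _ _ _ _

end Pool.Agent.H21.CG
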