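import Pool.Agent.H30.CP.Null

/-!
MP_8923e7_nt, project CG (consecutive gaps: coarse tuples with an isolated element).  Definitions.
`PP N b` (`Pool/Agent/H30/CP/BinsZ.lean`): `((N : ℤ) + b).toNat` is a prime.
-/

namespace Pool.Agent.H21.CG

open Finset Pool.Agent.H30.CP

/-- exactly one of the numbers `N + b`, `b ∈ B`, is a prime -/
def One (N : ℕ) (B : Finset ℤ) : Prop := ∃ b ∈ B, PP N b ∧ ∀ b' ∈ B, PP N b' → b' = b

/-- `N ≡ c₀ (mod L)`, some `N + a₀` with `|a₀ - x 0| ≤ T` is a prime, all primes `N + b` with `|b| ≤ D` have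
`L ∣ b` and (`b = a₀` or `b` is within `T` of one of `x 1, ..., x k`), and for one colour `i` the prime `N + a₀`
has colour `i` and for each `j ≥ 1` some `N + b`, `|b - x j| ≤ T`, is a prime of colour `i` -/
def Iso {r k : ℕ} (c : ℕ → Fin r) (L c₀ T : ℕ) (x : Fin (k + 1) → ℤ) (D N : ℕ) : Prop :=
  N ≡ c₀ [MOD L] ∧ ∃ (a₀ : ℤ) (i : Fin r), |a₀ - x 0| ≤ T ∧ PP N a₀ ∧ c ((N : ℤ) + a₀).toNat = i ∧
    (∀ b : ℤ, |b| ≤ D → PP N b → (L : ℤ) ∣ b ∧ (b = a₀ ∨ ∃ j : Fin k, |b - x j.succ| ≤ T)) ∧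
    ∀ j : Fin k, ∃ b : ℤ, |b - x j.succ| ≤ T ∧ PP N b ∧ c ((N : ℤ) + b).toNat = i

/-- the nodes of the `k`-ary tree of height `n` -/
def Ix (k : ℕ) : ℕ → Type
  | 0 => Empty
  | n + 1 => Option (Fin k × Ix k n)

instance instFintypeIx (k : ℕ) : ∀ n, Fintype (Ix k n)
  | 0 => inferInstanceAs (Fintype Empty)
  | n + 1 =>
    haveI := instFintypeIx k n
    inferInstanceAs (Fintype (Option (Fin k × Ix k n)))

instance instDecIx (k : ℕ) : ∀ n, DecidableEq (Ix k n)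
  | 0 => inferInstanceAs (DecidableEq Empty)
  | n + 1 =>
    haveI := instDecIx k n
    inferInstanceAs (DecidableEq (Option (Fin k × Ix k n)))

/-- the `n`-th gap between consecutive primes, `p_1 = 2` being `Nat.nth Nat.Prime 0` -/
noncomputable def gap (n : ℕ) : ℕ := Nat.nth Nat.Prime (n + 1) - Nat.nth Nat.Prime n

end Pool.Agent.H21.CG
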