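import Pool.Agent.H21.CG.Df

/-!
[H21 CG GAP]  From exact patterns with an isolated element to consecutive gaps.

Hypothesis `h` (case `k = 2` of the main theorem): for all `x : Fin 3 → ℤ` there are `a : Fin 3 → ℤ` and a finite
set `Ω` with `|a j - x j| ≤ T`, `a j ∈ Ω`, all elements of `Ω` multiples of `L`, each element of `Ω` equal to `a 0`
or within `T` of `x 1` or `x 2`, and for every `D` infinitely many `N ≡ s (mod L)` with
`N + b prime ↔ b ∈ Ω` for `|b| ≤ D`.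

Proof of `gaps`.  Given `u`, `v` put `u' = max u (2T+1)`, `v' = max v (2T+1)`, `x 0 = 0`, `x 1 = -u'`, `x 2 = v'`.
Then `a 0 ∈ [-T,T]`, `a 1 ∈ [-u'-T, -u'+T]` is `< a 0` and `a 2 > a 0`.  Let `q` be the largest element of `Ω` which
is `< a 0` and `q'` the smallest which is `> a 0` (both exist: `a 1`, `a 2`).  `q ≠ a 0` and `q < a 0 ≤ T < v' - T`
so `q` is within `T` of `-u'`; similarly `q'` is within `T` of `v'`.  Let `D ≥ |q|, |q'|`.  For each of the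
infinitely many `N` (take `N > D`) the numbers `N + q < N + a 0 < N + q'` are primes with no prime between, so
`N + q = Nat.nth Nat.Prime n`, `n = Nat.count Nat.Prime (N + q)` (`Nat.nth_count`), and `N + a 0`, `N + q'` are the
next two (`Nat.count` of `N + a 0` is `n + 1` because there is no prime strictly between: e.g. `Nat.count_succ`,
`Nat.nth_count`, or prove by hand: `Nat.nth Nat.Prime (n+1)` is the least prime `> Nat.nth Nat.Prime n`,
`Nat.nth_strictMono`, `Nat.exists_lt_card_nth_eq`, `Nat.infinite_setOf_prime`).  So `gap n = a 0 - q` is within `2T` of `u'`, hence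
within `4T+1` of `u`, `gap (n+1)` is within `4T+1` of `v`, and the three primes are `≡ s (mod L)` since `L ∣ q, a 0, q'`.
`n → ∞` with `N`.  So `C = 4T+1` (in naturals: `|(gap n : ℤ) - u| ≤ C`).

-/

namespace Pool.Agent.H21.CG

open Finset Pool.Agent.H30.CP

theorem gap_next {n p p' : ℕ} (hn : Nat.nth Nat.Prime n = p) (hp' : p'.Prime) (hlt : p < p')
    (hno : ∀ r : ℕ, p < r → r < p' → ¬ r.Prime) : Nat.nth Nat.Prime (n + 1) = p' := by
  have hinf := Nat.infinite_setOfPred_prime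
  have h1 : Nat.nth Nat.Prime (Nat.count Nat.Prime p') = p' := Nat.nth_count hp'
  have h2 : n < Nat.count Nat.Prime p' := by
    rw [← Nat.nth_lt_nth hinf, hn, h1]
    exact hlt
  by_contra hne
  have h3 : n + 1 < Nat.count Nat.Prime p' := by
    rcases Nat.lt_or_ge (n + 1) (Nat.count Nat.Prime p') with h | h
    · exact h
    · have h4 : n + 1 = Nat.count Nat.Prime p' := le_antisymm h2 h
      rw [h4] at hne
      exact absurd h1 hne
  refine hno (Nat.nth Nat.Prime (n + 1)) ?_ ?_ (Nat.nth_mem_of_infinite hinf _)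
  · rw [← hn, Nat.nth_lt_nth hinf]
    omega
  · have h5 := (Nat.nth_lt_nth hinf).2 h3
    rwa [h1] at h5

theorem gap_modEq {L s N : ℕ} {b : ℤ} (h : N ≡ s [MOD L]) (hb : (L : ℤ) ∣ b)
    (h0 : 0 ≤ (N : ℤ) + b) : ((N : ℤ) + b).toNat ≡ s [MOD L] := by
  rw [← Int.natCast_modEq_iff, Int.toNat_of_nonneg h0]
  have h1 : (N : ℤ) ≡ s [ZMOD L] := (Int.natCast_modEq_iff).2 h
  have h2 : b ≡ 0 [ZMOD L] := (Int.modEq_zero_iff_dvd).2 hb
  have h3 := h1.add h2
  rwa [add_zero] at h3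

theorem gaps (L s T : ℕ)
    (h : ∀ x : Fin 3 → ℤ, ∃ (a : Fin 3 → ℤ) (Ω : Finset ℤ),
      (∀ j, |a j - x j| ≤ T ∧ a j ∈ Ω) ∧
      (∀ w ∈ Ω, (L : ℤ) ∣ w ∧ (w = a 0 ∨ |w - x 1| ≤ T ∨ |w - x 2| ≤ T)) ∧
      ∀ D : ℕ, {N : ℕ | N ≡ s [MOD L] ∧
        ∀ b : ℤ, |b| ≤ D → (((N : ℤ) + b).toNat.Prime ↔ b ∈ Ω)}.Infinite) :
    ∃ C : ℕ, ∀ u v : ℕ, {n : ℕ | |(gap n : ℤ) - u| ≤ C ∧ |(gap (n + 1) : ℤ) - v| ≤ C ∧
      ∀ i ≤ 2, Nat.nth Nat.Prime (n + i) ≡ s [MOD L]}.Infinite := by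
  refine ⟨4 * T + 1, fun u v => ?_⟩
  obtain ⟨u', hu1, hu2, hu3⟩ : ∃ u' : ℤ, (u : ℤ) ≤ u' ∧ 2 * (T : ℤ) + 1 ≤ u' ∧
      u' ≤ u + (2 * T + 1) := by
    refine ⟨max u (2 * T + 1), le_max_left _ _, le_max_right _ _, ?_⟩
    refine max_le ?_ ?_ <;> omega
  obtain ⟨v', hv1, hv2, hv3⟩ : ∃ v' : ℤ, (v : ℤ) ≤ v' ∧ 2 * (T : ℤ) + 1 ≤ v' ∧
      v' ≤ v + (2 * T + 1) := by
    refine ⟨max v (2 * T + 1), le_max_left _ _, le_max_right _ _, ?_⟩
    refine max_le ?_ ?_ <;> omega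
  obtain ⟨a, Ω, ha, hΩ, hinf⟩ := h ![0, -u', v']
  have ha0 : |a 0 - 0| ≤ T := (ha 0).1
  have ha1 : |a 1 - -u'| ≤ T := (ha 1).1
  have ha2 : |a 2 - v'| ≤ T := (ha 2).1
  rw [abs_le] at ha0 ha1 ha2
  have hΩ' : ∀ w ∈ Ω, (L : ℤ) ∣ w ∧ (w = a 0 ∨ |w - -u'| ≤ T ∨ |w - v'| ≤ T) := hΩ
  obtain ⟨q, hq, hqmax⟩ := (Ω.filter (fun w => w < a 0)).exists_max_image id
    ⟨a 1, mem_filter.2 ⟨(ha 1).2, by omega⟩⟩
  obtain ⟨q', hq', hqmin⟩ := (Ω.filter (fun w => a 0 < w)).exists_min_image id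
    ⟨a 2, mem_filter.2 ⟨(ha 2).2, by omega⟩⟩
  rw [mem_filter] at hq hq'
  have hqT : |q - -u'| ≤ T := by
    rcases (hΩ' q hq.1).2 with h1 | h1 | h1
    · exact absurd h1 (ne_of_lt hq.2)
    · exact h1
    · exfalso
      rw [abs_le] at h1
      have := hq.2
      omega
  have hqT' : |q' - v'| ≤ T := by
    rcases (hΩ' q' hq'.1).2 with h1 | h1 | h1
    · exact absurd h1 (ne_of_gt hq'.2)
    · exfalso
      rw [abs_le] at h1
      have := hq'.2
      omega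
    · exact h1
  rw [abs_le] at hqT hqT'
  obtain ⟨D, hD1, hD2⟩ : ∃ D : ℕ, |q| ≤ D ∧ |q'| ≤ D := by
    refine ⟨q.natAbs + q'.natAbs, ?_, ?_⟩ <;> (rw [abs_le]; omega)
  rw [abs_le] at hD1 hD2
  have hqa := hq.2
  have hqa' := hq'.2
  refine Set.infinite_of_forall_exists_gt fun M => ?_
  obtain ⟨N, ⟨hNs, hN⟩, hNgt⟩ := (hinf D).exists_gt (D + Nat.nth Nat.Prime M)
  have hNgt' : (D : ℤ) + (Nat.nth Nat.Prime M : ℤ) < N := by exact_mod_cast hNgt
  have hM0 : (0 : ℤ) ≤ (Nat.nth Nat.Prime M : ℤ) := Int.natCast_nonneg _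
  have hp : (((N : ℤ) + q).toNat).Prime := (hN q (by rw [abs_le]; omega)).2 hq.1
  have hp1 : (((N : ℤ) + a 0).toNat).Prime := (hN (a 0) (by rw [abs_le]; omega)).2 (ha 0).2
  have hp2 : (((N : ℤ) + q').toNat).Prime := (hN q' (by rw [abs_le]; omega)).2 hq'.1
  have e0 : ((((N : ℤ) + q).toNat : ℕ) : ℤ) = N + q := Int.toNat_of_nonneg (by omega)
  have e1 : ((((N : ℤ) + a 0).toNat : ℕ) : ℤ) = N + a 0 := Int.toNat_of_nonneg (by omega)
  have e2 : ((((N : ℤ) + q').toNat : ℕ) : ℤ) = N + q' := Int.toNat_of_nonneg (by omega)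
  set n := Nat.count Nat.Prime (((N : ℤ) + q).toNat) with hn
  have hn0 : Nat.nth Nat.Prime n = ((N : ℤ) + q).toNat := Nat.nth_count hp
  have hn1 : Nat.nth Nat.Prime (n + 1) = ((N : ℤ) + a 0).toNat := by
    refine gap_next hn0 hp1 (by omega) ?_
    intro r hr1 hr2 hr
    have h1 : ((N : ℤ) + ((r : ℤ) - N)).toNat = r := by
      rw [add_sub_cancel, Int.toNat_natCast]
    have h2 := (hN ((r : ℤ) - N) (by rw [abs_le]; omega)).1 (by rw [h1]; exact hr)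
    have h3 := hqmax _ (mem_filter.2 ⟨h2, by omega⟩)
    simp only [id] at h3
    omega
  have hn2 : Nat.nth Nat.Prime (n + 1 + 1) = ((N : ℤ) + q').toNat := by
    refine gap_next hn1 hp2 (by omega) ?_
    intro r hr1 hr2 hr
    have h1 : ((N : ℤ) + ((r : ℤ) - N)).toNat = r := by
      rw [add_sub_cancel, Int.toNat_natCast]
    have h2 := (hN ((r : ℤ) - N) (by rw [abs_le]; omega)).1 (by rw [h1]; exact hr)
    have h3 := hqmin _ (mem_filter.2 ⟨h2, by omega⟩)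
    simp only [id] at h3
    omega
  refine ⟨n, ⟨?_, ?_, ?_⟩, ?_⟩
  · have h1 : ((gap n : ℕ) : ℤ) = a 0 - q := by
      unfold gap
      rw [hn1, hn0]
      omega
    rw [h1, abs_le]
    push_cast
    constructor <;> omega
  · have h1 : ((gap (n + 1) : ℕ) : ℤ) = q' - a 0 := by
      unfold gap
      rw [hn2, hn1]
      omega
    rw [h1, abs_le]
    push_cast
    constructor <;> omega
  · intro i hi
    obtain rfl | rfl | rfl : i = 0 ∨ i = 1 ∨ i = 2 := by omega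
    · rw [add_zero, hn0]
      exact gap_modEq hNs (hΩ' q hq.1).1 (by omega)
    · rw [hn1]
      exact gap_modEq hNs (hΩ' _ (ha 0).2).1 (by omega)
    · have h5 : n + 2 = n + 1 + 1 := rfl
      rw [h5, hn2]
      exact gap_modEq hNs (hΩ' _ hq'.1).1 (by omega)
  · have h6 : Nat.nth Nat.Prime M < Nat.nth Nat.Prime n := by
      rw [hn0]
      omega
    exact (Nat.nth_lt_nth Nat.infinite_setOfPred_prime).1 h6

end Pool.Agent.H21.CG
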