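import Pool.Agent.H21.CG.Tree
import Pool.Agent.H21.CG.Cell

/-!
[H21 CG MAIN]  Coarse prime tuples with an isolated element.
-/

namespace Pool.Agent.H21.CG

open Finset Pool.Agent.H30.CP

variable {r k : ℕ}

/-- admissibility of few multiples of a factorial -/
theorem adm_mult (K W : ℕ) (hKW : K.factorial ∣ W) {ι : Type} [Fintype ι]
    (V : ι → Finset ℤ) (hV : ∑ j, (V j).card ≤ K) (hW : ∀ j, ∀ h ∈ V j, (W : ℤ) ∣ h) :
    ∀ p : ℕ, p.Prime → ∃ a : ℤ, ∀ j, ∀ h ∈ V j, ¬ (p : ℤ) ∣ a + h := by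
  classical
  intro p hp
  by_cases hpK : p ≤ K
  · refine ⟨1, fun d h hh hdv => ?_⟩
    have h1 : (p : ℤ) ∣ (W : ℤ) := by
      have h2 : p ∣ W := (Nat.dvd_factorial hp.pos hpK).trans hKW
      exact_mod_cast h2
    have h3 : (p : ℤ) ∣ h := h1.trans (hW d h hh)
    have h4 : (p : ℤ) ∣ 1 := (dvd_add_left h3).1 hdv
    have h5 : p ∣ 1 := by exact_mod_cast h4
    exact hp.one_lt.ne' (Nat.dvd_one.1 h5)
  · have hp0 : (0 : ℤ) < p := by exact_mod_cast hp.pos
    set E : Finset ℕ := (univ.biUnion V).image (fun h : ℤ => ((-h) % p).toNat) with hE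
    have hEcard : E.card ≤ K := card_image_le.trans (card_biUnion_le.trans hV)
    obtain ⟨a, ha, haE⟩ : ∃ a ∈ range p, a ∉ E := by
      by_contra hcon2
      push Not at hcon2
      have h1 : (range p).card ≤ E.card := card_le_card hcon2
      rw [card_range] at h1
      omega
    refine ⟨(a : ℤ), fun d h hh hdv => haE ?_⟩
    rw [hE, mem_image]
    refine ⟨h, mem_biUnion.2 ⟨d, mem_univ _, hh⟩, ?_⟩
    have h1 : (-h) % (p : ℤ) = (a : ℤ) % (p : ℤ) := by
      apply Int.emod_eq_emod_iff_emod_sub_eq_zero.2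
      rw [← Int.dvd_iff_emod_eq_zero]
      have e : -h - a = -((a : ℤ) + h) := by ring
      rw [e]
      exact (dvd_neg).2 hdv
    rw [h1, Int.emod_eq_of_lt (Int.natCast_nonneg a) (by exact_mod_cast mem_range.1 ha)]
    simp

theorem iso_exists (hk : 1 ≤ k) (c : ℕ → Fin r) (L c₀ : ℕ) (hL : 0 < L)
    (hc₀ : Nat.Coprime c₀ L) :
    ∃ T : ℕ, ∀ x : Fin (k + 1) → ℤ, ∀ D N0 : ℕ, ∃ N ≥ N0, Iso c L c₀ T x D N := by
  classical
  by_contra hcon
  have hbad : ∀ T : ℕ, ∃ x : Fin (k + 1) → ℤ, ∃ D N0 : ℕ, ∀ N ≥ N0, ¬ Iso c L c₀ T x D N := by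
    push Not at hcon
    exact hcon
  have hkR : (1 : ℝ) ≤ k := by exact_mod_cast hk
  set n : ℕ := 20 * k * r with hn
  set m : ℕ := Fintype.card (Ix k (n + 1)) with hm
  have hm1 : 1 ≤ m := Fintype.card_pos_iff.2 ⟨(none : Option (Fin k × Ix k n))⟩
  obtain ⟨s, hs, hcells⟩ := cells m hm1
  set K : ℕ := m * s with hK
  set W : ℕ := L * K.factorial with hW
  have hW0 : 0 < W := Nat.mul_pos hL (Nat.factorial_pos K)
  have hW0Z : (0 : ℤ) < W := by exact_mod_cast hW0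
  set B0 : Finset ℤ := (range s).image (fun i : ℕ => (W : ℤ) * (i : ℤ)) with hB0
  have hB0W : ∀ β ∈ B0, (W : ℤ) ∣ β := by
    intro β hβ
    rw [hB0, mem_image] at hβ
    obtain ⟨i, _, rfl⟩ := hβ
    exact dvd_mul_right _ _
  have hB0card : B0.card = s := by
    rw [hB0, card_image_of_injective, card_range]
    intro i j hij
    have h1 : (W : ℤ) * (i : ℤ) = (W : ℤ) * (j : ℤ) := hij
    exact_mod_cast mul_left_cancel₀ hW0Z.ne' h1
  obtain ⟨pos, ω, ⟨D, N0, hpot⟩, hω0, hω1, hposW, hposD⟩ :=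
    pot_exists hk hbad W hW0 (dvd_mul_right _ _) B0 hB0W (n + 1)
  set V : Ix k (n + 1) → Finset ℤ := fun d => cell B0 (pos d) with hV
  have hVW : ∀ d, ∀ h ∈ V d, (W : ℤ) ∣ h := by
    intro d h hh
    obtain ⟨β, hβ, rfl⟩ := mem_cell.1 hh
    exact dvd_add (hB0W β hβ) (hposW d)
  have hVcard : ∀ d, (V d).card = s := by
    intro d
    show (B0.image (fun β => β + pos d)).card = s
    rw [card_image_of_injective _ (add_left_injective _), hB0card]
  obtain ⟨T, μ, hT, hμ, hsum, hone⟩ := hcells (Ix k (n + 1)) V hm.symm hVcard (by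
      intro d d' hdd
      rw [disjoint_left]
      intro h hh hh'
      obtain ⟨β, hβ, rfl⟩ := mem_cell.1 hh
      obtain ⟨β', hβ', he⟩ := mem_cell.1 hh'
      exact hposD d d' hdd β hβ β' hβ' he.symm)
    (adm_mult K W (dvd_mul_left _ _) V (by
      rw [Finset.sum_congr rfl fun d _ => hVcard d, sum_const, card_univ, smul_eq_mul]) hVW)
    L c₀ hL (fun d h hh => dvd_trans (by
      rw [hW]
      push_cast
      exact dvd_mul_right _ _) (hVW d h hh)) hc₀ D N0
  -- double counting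
  have h1 : ∑ N ∈ T, μ N * ∑ d, (if One N (V d) then ω d else 0) ≤ r := by
    calc ∑ N ∈ T, μ N * ∑ d, (if One N (V d) then ω d else 0) ≤ ∑ N ∈ T, μ N * (r : ℝ) := by
          refine Finset.sum_le_sum fun N hN => ?_
          refine mul_le_mul_of_nonneg_left ?_ (hμ N)
          obtain ⟨h2, h3, h4⟩ := hT N hN
          have h5 := hpot N h2.le h3 (by
            intro b hb hp
            obtain ⟨d, hd⟩ := h4 b hb hp
            obtain ⟨β, hβ, he⟩ := mem_cell.1 hd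
            exact ⟨d, β, hβ, he.symm⟩)
          refine h5.trans ?_
          have h6 := card_le_univ (univ.filter (fun i : Fin r => Al c B0 pos N i))
          rw [Fintype.card_fin] at h6
          exact_mod_cast h6
      _ = r := by rw [← Finset.sum_mul, hsum, one_mul]
  have h2 : ∑ N ∈ T, μ N * ∑ d, (if One N (V d) then ω d else 0) =
      ∑ d, ω d * ∑ N ∈ T.filter (fun N => One N (V d)), μ N := by
    simp_rw [Finset.mul_sum, Finset.sum_filter]
    rw [Finset.sum_comm]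
    refine Finset.sum_congr rfl fun d _ => Finset.sum_congr rfl fun N _ => ?_
    split_ifs
    · ring
    · ring
  have h3 : ∑ d, ω d * (1 / 20) ≤ ∑ d, ω d * ∑ N ∈ T.filter (fun N => One N (V d)), μ N :=
    Finset.sum_le_sum fun d _ => mul_le_mul_of_nonneg_left (hone d) (hω0 d)
  rw [← Finset.sum_mul, hω1] at h3
  have h4 : (((n + 1 : ℕ) : ℝ) / k) * (1 / 20) ≤ r := by linarith
  have h5 : ((n + 1 : ℕ) : ℝ) = 20 * k * r + 1 := by
    rw [hn]
    push_cast
    ring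
  rw [h5, div_mul_eq_mul_div, div_le_iff₀ (by linarith)] at h4
  linarith

/-- Coarse prime tuples with an isolated element. -/
theorem iso_tuples (hk : 1 ≤ k) (c : ℕ → Fin r) (L c₀ : ℕ) (hL : 0 < L)
    (hc₀ : Nat.Coprime c₀ L) :
    ∃ T : ℕ, ∀ x : Fin (k + 1) → ℤ, ∃ (i : Fin r) (a : Fin (k + 1) → ℤ) (Ω : Finset ℤ),
      Function.Injective a ∧ (∀ j, |a j - x j| ≤ T ∧ a j ∈ Ω) ∧
      (∀ w ∈ Ω, (L : ℤ) ∣ w ∧ (w = a 0 ∨ ∃ j : Fin k, |w - x j.succ| ≤ T)) ∧
      ∀ D : ℕ, {N : ℕ | N ≡ c₀ [MOD L] ∧ (∀ j, c ((N : ℤ) + a j).toNat = i) ∧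
        ∀ b : ℤ, |b| ≤ D → (((N : ℤ) + b).toNat.Prime ↔ b ∈ Ω)}.Infinite := by
  classical
  obtain ⟨T, hT⟩ := iso_exists hk c L c₀ hL hc₀
  refine ⟨T + (2 * T + 1) * (k + 1), fun x₀ => ?_⟩
  obtain ⟨x, hx1, _, hx3⟩ := sep_exists (k + 1) (2 * T + 1) (Nat.succ_pos k) (Nat.succ_pos _) x₀
  have hnear : ∀ (b : ℤ) (j : Fin (k + 1)), |b - x j| ≤ T →
      |b - x₀ j| ≤ ((T + (2 * T + 1) * (k + 1) : ℕ) : ℤ) := by
    intro b j h1
    have h2 := hx1 j
    push_cast at h2 ⊢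
    calc |b - x₀ j| = |(b - x j) + (x j - x₀ j)| := by congr 1; ring
      _ ≤ |b - x j| + |x j - x₀ j| := abs_add_le _ _
      _ ≤ T + (2 * T + 1) * (k + 1) := add_le_add h1 h2
  -- the window
  set U : Finset ℤ := univ.biUnion (fun j : Fin (k + 1) => Icc (x j - T) (x j + T)) with hU
  have hmemU : ∀ b : ℤ, b ∈ U ↔ ∃ j, |b - x j| ≤ T := by
    intro b
    rw [hU, mem_biUnion]
    constructor
    · rintro ⟨j, _, hj⟩
      rw [mem_Icc] at hj
      exact ⟨j, abs_le.2 ⟨by linarith [hj.1], by linarith [hj.2]⟩⟩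
    · rintro ⟨j, hj⟩
      have := abs_le.1 hj
      exact ⟨j, mem_univ _, mem_Icc.2 ⟨by linarith [this.1], by linarith [this.2]⟩⟩
  -- the possible patterns
  let Q : ℕ → (Fin r × (Fin (k + 1) → {b // b ∈ U}) × {s // s ∈ U.powerset}) → ℕ → Prop :=
    fun D t N => N ≡ c₀ [MOD L] ∧ (∀ j, |(t.2.1 j : ℤ) - x j| ≤ T ∧ (t.2.1 j : ℤ) ∈ t.2.2.1 ∧
      c ((N : ℤ) + (t.2.1 j : ℤ)).toNat = t.1) ∧ (∀ w ∈ t.2.2.1, (L : ℤ) ∣ w ∧
        (w = (t.2.1 0 : ℤ) ∨ ∃ j : Fin k, |w - x j.succ| ≤ T)) ∧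
      ∀ b : ℤ, |b| ≤ D → (PP N b ↔ b ∈ t.2.2.1)
  have hQ : ∀ D : ℕ, ∃ t, {N : ℕ | Q D t N}.Infinite := by
    intro D
    set D' : ℕ := D + ∑ b ∈ U, b.natAbs with hD'
    have hUD : ∀ b ∈ U, |b| ≤ D' := by
      intro b hb
      have h1 : b.natAbs ≤ ∑ b ∈ U, b.natAbs :=
        Finset.single_le_sum (f := fun b : ℤ => b.natAbs) (fun _ _ => Nat.zero_le _) hb
      rw [Int.abs_eq_natAbs]
      have : b.natAbs ≤ D' := by omega
      exact_mod_cast this
    have hex : ∀ N0 : ℕ, ∃ N ≥ N0, ∃ t, Q D t N := by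
      intro N0
      obtain ⟨N, hN, hNc, a₀, i, h0, hp0, hc0, h1, h2⟩ := hT x D' N0
      choose a ha1 ha2 ha3 using h2
      set a' : Fin (k + 1) → ℤ := Fin.cons a₀ a with ha'
      have ha1' : ∀ j, |a' j - x j| ≤ T := by
        intro j
        refine Fin.cases ?_ (fun j => ?_) j
        · rw [ha', Fin.cons_zero]
          exact h0
        · rw [ha', Fin.cons_succ]
          exact ha1 j
      have ha2' : ∀ j, PP N (a' j) := by
        intro j
        refine Fin.cases ?_ (fun j => ?_) j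
        · rw [ha', Fin.cons_zero]
          exact hp0
        · rw [ha', Fin.cons_succ]
          exact ha2 j
      have ha3' : ∀ j, c ((N : ℤ) + a' j).toNat = i := by
        intro j
        refine Fin.cases ?_ (fun j => ?_) j
        · rw [ha', Fin.cons_zero]
          exact hc0
        · rw [ha', Fin.cons_succ]
          exact ha3 j
      have haU : ∀ j, a' j ∈ U := fun j => (hmemU _).2 ⟨j, ha1' j⟩
      refine ⟨N, hN, ⟨i, fun j => ⟨a' j, haU j⟩,
        ⟨U.filter (fun b => PP N b), mem_powerset.2 (filter_subset _ _)⟩⟩, hNc, ?_, ?_, ?_⟩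
      · intro j
        exact ⟨ha1' j, mem_filter.2 ⟨haU j, ha2' j⟩, ha3' j⟩
      · intro w hw
        have hw' := mem_filter.1 hw
        have h3 := h1 w (hUD w hw'.1) hw'.2
        refine ⟨h3.1, ?_⟩
        show w = a' 0 ∨ _
        rw [ha', Fin.cons_zero]
        exact h3.2
      · intro b hb
        constructor
        · intro hp
          have hb' : |b| ≤ D' := hb.trans (by
            have : D ≤ D' := Nat.le_add_right _ _
            exact_mod_cast this)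
          refine mem_filter.2 ⟨(hmemU b).2 ?_, hp⟩
          rcases (h1 b hb' hp).2 with h3 | ⟨j, h3⟩
          · exact ⟨0, by rw [h3]; exact h0⟩
          · exact ⟨j.succ, h3⟩
        · intro hm
          exact (mem_filter.1 hm).2
    by_contra hcon
    push Not at hcon
    have hfin : (⋃ t, {N : ℕ | Q D t N}).Finite := Set.finite_iUnion fun t => hcon t
    obtain ⟨m, hm⟩ := hfin.bddAbove
    obtain ⟨N, hN, t, ht⟩ := hex (m + 1)
    have h3 := hm (Set.mem_iUnion.2 ⟨t, ht⟩)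
    omega
  -- one pattern for all `D`
  obtain ⟨t, ht⟩ : ∃ t, ∀ D : ℕ, {N : ℕ | Q D t N}.Infinite := by
    by_contra hcon
    push Not at hcon
    choose D hD using hcon
    obtain ⟨t, ht⟩ := hQ (∑ t, D t)
    refine ht ((hD t).subset ?_)
    intro N hN
    obtain ⟨h1, h2, h3, h4⟩ := hN
    refine ⟨h1, h2, h3, fun b hb => h4 b (hb.trans ?_)⟩
    have h5 : D t ≤ ∑ t, D t :=
      Finset.single_le_sum (f := fun t => D t) (fun _ _ => Nat.zero_le _) (Finset.mem_univ t)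
    exact_mod_cast h5
  obtain ⟨N1, hN1⟩ := (ht 0).nonempty
  refine ⟨t.1, fun j => (t.2.1 j : ℤ), t.2.2.1, ?_, ?_, ?_, ?_⟩
  · intro j j' hjj
    by_contra hne
    have h1 := (hN1.2.1 j).1
    have h2 := (hN1.2.1 j').1
    have h3 := hx3 j j' hne
    have hjj' : (t.2.1 j : ℤ) = (t.2.1 j' : ℤ) := hjj
    rw [hjj'] at h1
    push_cast at h3
    have h4 : |x j - x j'| ≤ |(t.2.1 j' : ℤ) - x j'| + |(t.2.1 j' : ℤ) - x j| := by
      have e : x j - x j' = ((t.2.1 j' : ℤ) - x j') - ((t.2.1 j' : ℤ) - x j) := by ring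
      rw [e]
      exact abs_sub _ _
    linarith
  · intro j
    exact ⟨hnear _ j (hN1.2.1 j).1, (hN1.2.1 j).2.1⟩
  · intro w hw
    obtain ⟨h1, h2⟩ := hN1.2.2.1 w hw
    refine ⟨h1, ?_⟩
    rcases h2 with h2 | ⟨j, h2⟩
    · exact Or.inl h2
    · exact Or.inr ⟨j, hnear w _ h2⟩
  · intro D
    refine (ht D).mono ?_
    intro N hN
    obtain ⟨h1, h2, _, h4⟩ := hN
    exact ⟨h1, fun j => (h2 j).2.2, fun b hb => h4 b hb⟩

end Pool.Agent.H21.CG
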