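import Pool.Agent.H21.CG.PairA

/-!
[H21 CG PAIR]  Two isolated primes: for every `u` and `D` infinitely many three consecutive gaps of the form
(greater than `D`, `u + O(1)`, greater than `D`).

Binary tree of height `8` built from hypothetical counterexamples.  If no node has exactly one prime in each of
its two subtrees, then the number of cells with exactly one prime is at most `1 + 8` times the number of cells
with at least two primes; the moments of `cells2` contradict this.
-/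

namespace Pool.Agent.H21.CG

open Finset Pool.Agent.H30.CP

/-- `N ≡ c₀ (mod L)`, and the only primes `N + b`, `|b| ≤ D`, are `N + a₀` and `N + a₁` with `a₀`, `a₁` within
`T` of `x 0`, `x 1` -/
def Iso2 (L c₀ T : ℕ) (x : Fin 2 → ℤ) (D N : ℕ) : Prop :=
  N ≡ c₀ [MOD L] ∧ ∃ a : Fin 2 → ℤ, (∀ j, |a j - x j| ≤ T ∧ PP N (a j) ∧ (L : ℤ) ∣ a j) ∧
    ∀ b : ℤ, |b| ≤ D → PP N b → ∃ j, b = a j

/-- the leaves of the binary tree of height `n` -/
def Lf : ℕ → Type
  | 0 => Unit
  | n + 1 => Fin 2 × Lf n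

instance instFintypeLf : ∀ n, Fintype (Lf n)
  | 0 => inferInstanceAs (Fintype Unit)
  | n + 1 =>
    haveI := instFintypeLf n
    inferInstanceAs (Fintype (Fin 2 × Lf n))

instance instDecLf : ∀ n, DecidableEq (Lf n)
  | 0 => inferInstanceAs (DecidableEq Unit)
  | n + 1 =>
    haveI := instDecLf n
    inferInstanceAs (DecidableEq (Fin 2 × Lf n))

theorem card_Lf : ∀ n, Fintype.card (Lf n) = 2 ^ n
  | 0 => rfl
  | n + 1 => by
    have h : Fintype.card (Lf (n + 1)) = Fintype.card (Fin 2 × Lf n) := rfl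
    rw [h, Fintype.card_prod, Fintype.card_fin, card_Lf n]
    ring

open Classical in
/-- the number of primes in a cell -/
noncomputable def ct (B0 : Finset ℤ) (N : ℕ) (p : ℤ) : ℕ :=
  (B0.filter (fun β => PP N (β + p))).card

/-- the number of cells with exactly one prime -/
noncomputable def lig (B0 : Finset ℤ) {n : ℕ} (pos : Lf n → ℤ) (N : ℕ) : ℕ :=
  (univ.filter (fun d => ct B0 N (pos d) = 1)).card

/-- the number of cells with at least two primes -/
noncomputable def hea (B0 : Finset ℤ) {n : ℕ} (pos : Lf n → ℤ) (N : ℕ) : ℕ :=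
  (univ.filter (fun d => 2 ≤ ct B0 N (pos d))).card

/-- the inequality between light and heavy cells -/
def Pot2 (L c₀ : ℕ) (B0 : Finset ℤ) (n : ℕ) (pos : Lf n → ℤ) : Prop :=
  ∃ D N0 : ℕ, ∀ N ≥ N0, N ≡ c₀ [MOD L] →
    (∀ b : ℤ, |b| ≤ D → PP N b → ∃ d, ∃ β ∈ B0, b = β + pos d) →
    (hea B0 pos N = 0 → lig B0 pos N ≤ 1) ∧
      (0 < hea B0 pos N → lig B0 pos N ≤ n * hea B0 pos N)

theorem Iso2.mono {L c₀ T : ℕ} {x x₀ : Fin 2 → ℤ} {D N : ℕ} (s : ℕ)
    (h : Iso2 L c₀ T x D N) (hx : ∀ j, |x j - x₀ j| ≤ s) : Iso2 L c₀ (T + s) x₀ D N := by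
  obtain ⟨h1, a, h2, h3⟩ := h
  refine ⟨h1, a, fun j => ⟨?_, (h2 j).2⟩, h3⟩
  have h4 := hx j
  have h5 := (h2 j).1
  push_cast
  calc |a j - x₀ j| = |(a j - x j) + (x j - x₀ j)| := by congr 1; ring
    _ ≤ |a j - x j| + |x j - x₀ j| := abs_add_le _ _
    _ ≤ T + s := add_le_add h5 h4

/-- separated bad vectors -/
theorem iso2_sep {L c₀ : ℕ}
    (hbad : ∀ T : ℕ, ∃ x : Fin 2 → ℤ, ∃ D N0 : ℕ, ∀ N ≥ N0, ¬ Iso2 L c₀ T x D N)
    (W : ℕ) (hW : 0 < W) (T G : ℕ) :
    ∃ x : Fin 2 → ℤ, (∀ j, (W : ℤ) ∣ x j) ∧ (∀ i j, i ≠ j → (G : ℤ) < |x i - x j|) ∧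
      ∃ D N0 : ℕ, ∀ N ≥ N0, ¬ Iso2 L c₀ T x D N := by
  set V : ℕ := W * (G + 1) with hV
  have hV0 : 0 < V := Nat.mul_pos hW (Nat.succ_pos _)
  obtain ⟨x₀, D, N0, hx₀⟩ := hbad (T + V * 2)
  obtain ⟨x, h1, h2, h3⟩ := sep_exists 2 V (by norm_num) hV0 x₀
  refine ⟨x, fun j => ?_, fun i j hij => ?_, D, N0, fun N hN hg => hx₀ N hN ?_⟩
  · have : (W : ℤ) ∣ (V : ℤ) := by
      rw [hV]
      push_cast
      exact dvd_mul_right _ _
    exact this.trans (h2 j)
  · have h4 := h3 i j hij
    have h5 : G + 1 ≤ V := Nat.le_mul_of_pos_left _ hW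
    have h6 : ((G + 1 : ℕ) : ℤ) ≤ (V : ℤ) := by exact_mod_cast h5
    push_cast at h6
    linarith
  · refine hg.mono (V * 2) (fun j => ?_)
    have := h1 j
    push_cast at this ⊢
    exact this

theorem card_prod2 {n : ℕ} (P : Fin 2 → Lf n → Prop) [∀ j, DecidablePred (P j)]
    [DecidablePred (fun q : Lf (n + 1) => P (q : Fin 2 × Lf n).1 (q : Fin 2 × Lf n).2)] :
    (univ.filter (fun q : Lf (n + 1) => P (q : Fin 2 × Lf n).1 (q : Fin 2 × Lf n).2)).card =
      (univ.filter (P 0)).card + (univ.filter (P 1)).card := by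
  classical
  have h1 : (univ.filter (fun q : Lf (n + 1) =>
      P (q : Fin 2 × Lf n).1 (q : Fin 2 × Lf n).2)).card =
      ∑ q : Fin 2 × Lf n, if P q.1 q.2 then 1 else 0 := by
    rw [card_filter]
    exact sum_congr rfl fun q _ => if_congr Iff.rfl rfl rfl
  rw [h1, Fintype.sum_prod_type, Fin.sum_univ_two, card_filter, card_filter]
  congr 1 <;> exact sum_congr rfl fun q _ => if_congr Iff.rfl rfl rfl

theorem pot2_exists {L c₀ : ℕ}
    (hbad : ∀ T : ℕ, ∃ x : Fin 2 → ℤ, ∃ D N0 : ℕ, ∀ N ≥ N0, ¬ Iso2 L c₀ T x D N)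
    (W : ℕ) (hW : 0 < W) (hLW : L ∣ W) (B0 : Finset ℤ) (hB0 : ∀ β ∈ B0, (W : ℤ) ∣ β) :
    ∀ n : ℕ, ∃ pos : Lf n → ℤ, Pot2 L c₀ B0 n pos ∧ (∀ d, (W : ℤ) ∣ pos d) ∧
      ∀ d d', d ≠ d' → ∀ β ∈ B0, ∀ β' ∈ B0, β + pos d ≠ β' + pos d' := by
  classical
  intro n
  induction n with
  | zero =>
    have hsub : Subsingleton (Lf 0) := inferInstanceAs (Subsingleton Unit)
    refine ⟨fun _ => 0, ⟨0, 0, fun N _ _ _ => ⟨fun _ => ?_, fun h => ?_⟩⟩, fun _ => dvd_zero _,
      fun d d' hd => absurd (Subsingleton.elim d d') hd⟩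
    · unfold lig
      refine (card_le_univ _).trans ?_
      rw [card_Lf]
      norm_num
    · unfold hea at h
      obtain ⟨d, hd⟩ := card_pos.1 h
      rw [mem_filter] at hd
      unfold lig
      rw [zero_mul, Nat.le_zero, card_eq_zero, filter_eq_empty_iff]
      intro d' _ hd'
      have h2 : 2 ≤ ct B0 N 0 := hd.2
      have h3 : ct B0 N 0 = 1 := hd'
      omega
  | succ n ih =>
    obtain ⟨pos, ⟨D, N0, hpot⟩, hposW, hposD⟩ := ih
    -- a bound for the tree
    set R : ℕ := ∑ d : Lf n, ∑ β ∈ B0, (β + pos d).natAbs with hR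
    have hRb : ∀ d, ∀ β ∈ B0, |β + pos d| ≤ R := by
      intro d β hβ
      have h1 : (β + pos d).natAbs ≤ ∑ β ∈ B0, (β + pos d).natAbs :=
        Finset.single_le_sum (f := fun β : ℤ => (β + pos d).natAbs) (fun _ _ => Nat.zero_le _) hβ
      have h2 : ∑ β ∈ B0, (β + pos d).natAbs ≤ ∑ d : Lf n, ∑ β ∈ B0, (β + pos d).natAbs :=
        Finset.single_le_sum (f := fun d => ∑ β ∈ B0, (β + pos d).natAbs)
          (fun _ _ => Nat.zero_le _) (Finset.mem_univ d)
      have h3 : (β + pos d).natAbs ≤ R := by omega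
      rw [Int.abs_eq_natAbs]
      exact_mod_cast h3
    obtain ⟨x, hxW, hxG, Dx, Nx, hx⟩ := iso2_sep hbad W hW R (2 * R + D)
    set X : ℕ := ∑ j, (x j).natAbs with hX
    have hXb : ∀ j, |x j| ≤ X := by
      intro j
      have h1 : (x j).natAbs ≤ X :=
        Finset.single_le_sum (f := fun j => (x j).natAbs) (fun _ _ => Nat.zero_le _)
          (Finset.mem_univ j)
      rw [Int.abs_eq_natAbs]
      exact_mod_cast h1
    have hLWz : (L : ℤ) ∣ (W : ℤ) := by exact_mod_cast hLW
    have hLx : ∀ j, (L : ℤ) ∣ x j := fun j => dvd_trans hLWz (hxW j)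
    have hD0 : (0 : ℤ) ≤ D := Int.natCast_nonneg _
    let pos' : Lf (n + 1) → ℤ := fun q => x (q : Fin 2 × Lf n).1 + pos (q : Fin 2 × Lf n).2
    have hp1 : ∀ (j : Fin 2) (d : Lf n), pos' ((j, d) : Fin 2 × Lf n) = x j + pos d :=
      fun _ _ => rfl
    refine ⟨pos', ⟨max Dx (D + X), max Nx (N0 + X), ?_⟩, fun q => ?_, ?_⟩
    · intro N hN hNc hex
      -- light and heavy cells of the children
      set lj : Fin 2 → ℕ := fun j => (univ.filter (fun d => ct B0 N (x j + pos d) = 1)).card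
        with hlj
      set hj : Fin 2 → ℕ := fun j => (univ.filter (fun d => 2 ≤ ct B0 N (x j + pos d))).card
        with hhj
      have hlig : lig B0 pos' N = lj 0 + lj 1 :=
        card_prod2 (fun j d => ct B0 N (x j + pos d) = 1)
      have hhea : hea B0 pos' N = hj 0 + hj 1 :=
        card_prod2 (fun j d => 2 ≤ ct B0 N (x j + pos d))
      have hchild : ∀ j : Fin 2, (hj j = 0 → lj j ≤ 1) ∧ (0 < hj j → lj j ≤ n * hj j) := by
        intro j
        have hNX : (X : ℤ) ≤ N := by
          have h1 : N0 + X ≤ max Nx (N0 + X) := le_max_right _ _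
          have h2 : X ≤ N := by omega
          exact_mod_cast h2
        have hxj := abs_le.1 (hXb j)
        obtain ⟨N', hN'⟩ : ∃ N' : ℕ, (N' : ℤ) = N + x j :=
          ⟨((N : ℤ) + x j).toNat, Int.toNat_of_nonneg (by linarith)⟩
        have hPP : ∀ b : ℤ, PP N' b ↔ PP N (x j + b) := by
          intro b
          unfold PP
          have e : (N' : ℤ) + b = (N : ℤ) + (x j + b) := by
            rw [hN']
            ring
          rw [e]
        have hct : ∀ d, ct B0 N' (pos d) = ct B0 N (x j + pos d) := by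
          intro d
          unfold ct
          congr 1
          apply filter_congr
          intro β _
          rw [hPP]
          have e : x j + (β + pos d) = β + (x j + pos d) := by ring
          rw [e]
        have h := hpot N' ?_ ?_ ?_
        · unfold lig hea at h
          simp only [hct] at h
          exact h
        · have h1 : N0 + X ≤ N := le_trans (le_max_right _ _) hN
          have h2 : ((N0 + X : ℕ) : ℤ) ≤ N := by exact_mod_cast h1
          push_cast at h2
          have h3 : (N0 : ℤ) ≤ N' := by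
            rw [hN']
            linarith
          exact_mod_cast h3
        · have h1 : (N' : ℤ) ≡ (N : ℤ) [ZMOD L] := by
            rw [Int.modEq_iff_dvd, hN']
            have e : (N : ℤ) - (N + x j) = -(x j) := by ring
            rw [e]
            exact (dvd_neg).2 (hLx j)
          have h2 : N' ≡ N [MOD L] := (Int.natCast_modEq_iff).1 h1
          exact h2.trans hNc
        · intro b hb hp
          rw [hPP] at hp
          obtain ⟨o, β, hβ, he⟩ := hex (x j + b) (by
            have h1 : D + X ≤ max Dx (D + X) := le_max_right _ _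
            have h2 : ((D + X : ℕ) : ℤ) ≤ ((max Dx (D + X) : ℕ) : ℤ) := by exact_mod_cast h1
            refine le_trans ?_ h2
            push_cast
            have h3 := abs_add_le (x j) b
            have h4 := hXb j
            linarith) hp
          have he' : x j + b = β + (x (o : Fin 2 × Lf n).1 + pos (o : Fin 2 × Lf n).2) := he
          by_cases hjj : (o : Fin 2 × Lf n).1 = j
          · rw [hjj] at he'
            exact ⟨(o : Fin 2 × Lf n).2, β, hβ, by linarith⟩
          · exfalso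
            have h1 := hxG _ _ hjj
            have e : x (o : Fin 2 × Lf n).1 - x j = b - (β + pos (o : Fin 2 × Lf n).2) := by
              linarith
            rw [e] at h1
            have h3 := abs_sub b (β + pos (o : Fin 2 × Lf n).2)
            have h4 := hRb (o : Fin 2 × Lf n).2 β hβ
            push_cast at h1
            have hR00 : (0 : ℤ) ≤ R := Int.natCast_nonneg _
            linarith
      rw [hlig, hhea]
      have h0 := hchild 0
      have h1 := hchild 1
      constructor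
      · intro hh
        have hh0 : hj 0 = 0 := by omega
        have hh1 : hj 1 = 0 := by omega
        by_contra hcon
        have hl0 : lj 0 = 1 := by
          have := h0.1 hh0
          have := h1.1 hh1
          omega
        have hl1 : lj 1 = 1 := by
          have := h0.1 hh0
          have := h1.1 hh1
          omega
        -- exactly one prime in each subtree
        have hone : ∀ j : Fin 2, ∃ a : ℤ, |a - x j| ≤ R ∧ PP N a ∧ (L : ℤ) ∣ a ∧
            ∀ d, ∀ β ∈ B0, PP N (β + (x j + pos d)) → β + (x j + pos d) = a := by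
          intro j
          have hl : lj j = 1 := by
            fin_cases j
            · exact hl0
            · exact hl1
          have hh' : hj j = 0 := by
            fin_cases j
            · exact hh0
            · exact hh1
          obtain ⟨d₀, hd₀⟩ := card_eq_one.1 hl
          have hd₀' : ct B0 N (x j + pos d₀) = 1 := by
            have : d₀ ∈ univ.filter (fun d => ct B0 N (x j + pos d) = 1) := by
              rw [hd₀]
              exact mem_singleton_self _
            exact (mem_filter.1 this).2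
          unfold ct at hd₀'
          obtain ⟨β₀, hβ₀⟩ := card_eq_one.1 hd₀'
          have hβ₀' : β₀ ∈ B0.filter (fun β => PP N (β + (x j + pos d₀))) := by
            rw [hβ₀]
            exact mem_singleton_self _
          rw [mem_filter] at hβ₀'
          refine ⟨β₀ + (x j + pos d₀), ?_, hβ₀'.2, ?_, ?_⟩
          · have e : β₀ + (x j + pos d₀) - x j = β₀ + pos d₀ := by ring
            rw [e]
            exact hRb d₀ β₀ hβ₀'.1
          · exact dvd_add (hLWz.trans (hB0 β₀ hβ₀'.1)) (dvd_add (hLx j) (hLWz.trans (hposW d₀)))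
          · intro d β hβ hp
            have hpos : 0 < ct B0 N (x j + pos d) := by
              unfold ct
              exact card_pos.2 ⟨β, mem_filter.2 ⟨hβ, hp⟩⟩
            have hle : ct B0 N (x j + pos d) < 2 := by
              by_contra h2
              push Not at h2
              have h3 : 0 < hj j := card_pos.2 ⟨d, mem_filter.2 ⟨mem_univ _, h2⟩⟩
              omega
            have h3 : d ∈ univ.filter (fun d => ct B0 N (x j + pos d) = 1) :=
              mem_filter.2 ⟨mem_univ _, by omega⟩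
            rw [hd₀, mem_singleton] at h3
            subst h3
            have h4 : β ∈ B0.filter (fun β => PP N (β + (x j + pos d))) :=
              mem_filter.2 ⟨hβ, hp⟩
            rw [hβ₀, mem_singleton] at h4
            rw [h4]
        choose a ha1 ha2 ha3 ha4 using hone
        refine hx N (le_trans (le_max_left _ _) hN) ⟨hNc, a, fun j => ⟨ha1 j, ha2 j, ha3 j⟩, ?_⟩
        intro b hb hp
        obtain ⟨o, β, hβ, he⟩ := hex b (hb.trans (by
          have : Dx ≤ max Dx (D + X) := le_max_left _ _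
          exact_mod_cast this)) hp
        have he' : b = β + (x (o : Fin 2 × Lf n).1 + pos (o : Fin 2 × Lf n).2) := he
        refine ⟨(o : Fin 2 × Lf n).1, ?_⟩
        rw [he'] at hp ⊢
        exact ha4 _ _ β hβ hp
      · intro hh
        rcases Nat.eq_zero_or_pos (hj 0) with e0 | e0 <;>
          rcases Nat.eq_zero_or_pos (hj 1) with e1 | e1
        · omega
        · have a1 := h0.1 e0
          have a2 := h1.2 e1
          rw [e0]
          nlinarith
        · have a1 := h1.1 e1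
          have a2 := h0.2 e0
          rw [e1]
          nlinarith
        · have a1 := h0.2 e0
          have a2 := h1.2 e1
          nlinarith
    · exact dvd_add (hxW _) (hposW _)
    · intro o o' hoo β hβ β' hβ' he
      have he' : β + (x (o : Fin 2 × Lf n).1 + pos (o : Fin 2 × Lf n).2) =
          β' + (x (o' : Fin 2 × Lf n).1 + pos (o' : Fin 2 × Lf n).2) := he
      by_cases hjj : (o : Fin 2 × Lf n).1 = (o' : Fin 2 × Lf n).1
      · rw [hjj] at he'
        refine hposD _ _ (fun h => hoo (Prod.ext hjj h)) β hβ β' hβ' (by linarith)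
      · have h1 := hxG _ _ hjj
        have e : x (o : Fin 2 × Lf n).1 - x (o' : Fin 2 × Lf n).1 =
            (β' + pos (o' : Fin 2 × Lf n).2) - (β + pos (o : Fin 2 × Lf n).2) := by linarith
        rw [e] at h1
        have h2 := hRb (o : Fin 2 × Lf n).2 β hβ
        have h3 := hRb (o' : Fin 2 × Lf n).2 β' hβ'
        have h4 := abs_sub (β' + pos (o' : Fin 2 × Lf n).2) (β + pos (o : Fin 2 × Lf n).2)
        push_cast at h1
        linarith

/-- admissibility of few multiples of a factorial -/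
theorem adm_mult2 (K W : ℕ) (hKW : K.factorial ∣ W) {ι : Type} [Fintype ι]
    (V : ι → Finset ℤ) (hV : ∑ j, (V j).card ≤ K) (hW : ∀ j, ∀ h ∈ V j, (W : ℤ) ∣ h) :
    ∀ p : ℕ, p.Prime → ∃ a : ℤ, ∀ j, ∀ h ∈ V j, ¬ (p : ℤ) ∣ a + h := by
  classical
  intro p hp
  by_cases hpK : p ≤ K
  · refine ⟨1, fun d h hh hdv => ?_⟩
    have h1 : (p : ℤ) ∣ (W : ℤ) := by
      have h2 : p ∣ W := (Nat.dvd_factorial hp.pos hpK).trans hKW
      exact_mod_cast h2
    have h3 : (p : ℤ) ∣ h := h1.trans (hW d h hh)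
    have h4 : (p : ℤ) ∣ 1 := (dvd_add_left h3).1 hdv
    have h5 : p ∣ 1 := by exact_mod_cast h4
    exact hp.one_lt.ne' (Nat.dvd_one.1 h5)
  · have hp0 : (0 : ℤ) < p := by exact_mod_cast hp.pos
    set E : Finset ℕ := (univ.biUnion V).image (fun h : ℤ => ((-h) % p).toNat) with hE
    have hEcard : E.card ≤ K := card_image_le.trans (card_biUnion_le.trans hV)
    obtain ⟨a, ha, haE⟩ : ∃ a ∈ range p, a ∉ E := by
      by_contra hcon2
      push Not at hcon2
      have h1 : (range p).card ≤ E.card := card_le_card hcon2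
      rw [card_range] at h1
      omega
    refine ⟨(a : ℤ), fun d h hh hdv => haE ?_⟩
    rw [hE, mem_image]
    refine ⟨h, mem_biUnion.2 ⟨d, mem_univ _, hh⟩, ?_⟩
    have h1 : (-h) % (p : ℤ) = (a : ℤ) % (p : ℤ) := by
      apply Int.emod_eq_emod_iff_emod_sub_eq_zero.2
      rw [← Int.dvd_iff_emod_eq_zero]
      have e : -h - a = -((a : ℤ) + h) := by ring
      rw [e]
      exact (dvd_neg).2 hdv
    rw [h1, Int.emod_eq_of_lt (Int.natCast_nonneg a) (by exact_mod_cast mem_range.1 ha)]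
    simp

theorem light_heavy (X : ℕ) : (X : ℝ) - 5 * ((X : ℝ) * ((X : ℝ) - 1)) ≤
    (if X = 1 then 1 else 0) - 8 * (if 2 ≤ X then 1 else 0) := by
  rcases Nat.lt_or_ge X 2 with h | h
  · interval_cases X
    · norm_num
    · norm_num
  · have h2 : (2 : ℝ) ≤ X := by exact_mod_cast h
    rw [if_neg (by omega), if_pos h]
    nlinarith

theorem iso2_exists (L c₀ : ℕ) (hL : 0 < L) (hc₀ : Nat.Coprime c₀ L) :
    ∃ T : ℕ, ∀ x : Fin 2 → ℤ, ∀ D N0 : ℕ, ∃ N ≥ N0, Iso2 L c₀ T x D N := by
  classical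
  by_contra hcon
  have hbad : ∀ T : ℕ, ∃ x : Fin 2 → ℤ, ∃ D N0 : ℕ, ∀ N ≥ N0, ¬ Iso2 L c₀ T x D N := by
    push Not at hcon
    exact hcon
  obtain ⟨s, hs, hcells⟩ := cells2 256 (by norm_num)
  set K : ℕ := 256 * s with hK
  set W : ℕ := L * K.factorial with hW
  have hW0 : 0 < W := Nat.mul_pos hL (Nat.factorial_pos K)
  have hW0Z : (0 : ℤ) < W := by exact_mod_cast hW0
  set B0 : Finset ℤ := (range s).image (fun i : ℕ => (W : ℤ) * (i : ℤ)) with hB0
  have hB0W : ∀ β ∈ B0, (W : ℤ) ∣ β := by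
    intro β hβ
    rw [hB0, mem_image] at hβ
    obtain ⟨i, _, rfl⟩ := hβ
    exact dvd_mul_right _ _
  have hB0card : B0.card = s := by
    rw [hB0, card_image_of_injective, card_range]
    intro i j hij
    have h1 : (W : ℤ) * (i : ℤ) = (W : ℤ) * (j : ℤ) := hij
    exact_mod_cast mul_left_cancel₀ hW0Z.ne' h1
  obtain ⟨pos, ⟨D, N0, hpot⟩, hposW, hposD⟩ :=
    pot2_exists hbad W hW0 (dvd_mul_right _ _) B0 hB0W 8
  set V : Lf 8 → Finset ℤ := fun d => B0.image (fun β => β + pos d) with hV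
  have hVW : ∀ d, ∀ h ∈ V d, (W : ℤ) ∣ h := by
    intro d h hh
    obtain ⟨β, hβ, rfl⟩ := mem_image.1 hh
    exact dvd_add (hB0W β hβ) (hposW d)
  have hVcard : ∀ d, (V d).card = s := by
    intro d
    show (B0.image (fun β => β + pos d)).card = s
    rw [card_image_of_injective _ (add_left_injective _), hB0card]
  have hcardL : Fintype.card (Lf 8) = 256 := by
    rw [card_Lf]
    norm_num
  obtain ⟨T, μ, hT, hμ, hsum, hmom⟩ := hcells (Lf 8) V hcardL hVcard (by
      intro d d' hdd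
      rw [disjoint_left]
      intro h hh hh'
      obtain ⟨β, hβ, rfl⟩ := mem_image.1 hh
      obtain ⟨β', hβ', he⟩ := mem_image.1 hh'
      exact hposD d d' hdd β hβ β' hβ' he.symm)
    (adm_mult2 K W (dvd_mul_left _ _) V (by
      rw [Finset.sum_congr rfl fun d _ => hVcard d, sum_const, card_univ, hcardL,
        smul_eq_mul]) hVW)
    L c₀ hL (fun d h hh => dvd_trans (by
      rw [hW]
      push_cast
      exact dvd_mul_right _ _) (hVW d h hh)) hc₀ D N0
  have hctV : ∀ N d, ((V d).filter (fun b => PP N b)).card = ct B0 N (pos d) := by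
    intro N d
    show ((B0.image (fun β => β + pos d)).filter (fun b => PP N b)).card = _
    rw [filter_image, card_image_of_injective _ (add_left_injective _)]
    rfl
  simp only [hctV] at hmom
  -- the inequality for each `N`
  have h1 : ∀ N ∈ T, ∑ d, ((ct B0 N (pos d) : ℝ) -
      5 * ((ct B0 N (pos d) : ℝ) * ((ct B0 N (pos d) : ℝ) - 1))) ≤ 1 := by
    intro N hN
    obtain ⟨h2, h3, h4⟩ := hT N hN
    have h5 := hpot N h2.le h3 (by
      intro b hb hp
      obtain ⟨d, hd⟩ := h4 b hb hp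
      obtain ⟨β, hβ, he⟩ := mem_image.1 hd
      exact ⟨d, β, hβ, he.symm⟩)
    have h6 : lig B0 pos N ≤ 1 + 8 * hea B0 pos N := by
      rcases Nat.eq_zero_or_pos (hea B0 pos N) with e0 | e0
      · have := h5.1 e0
        omega
      · have := h5.2 e0
        omega
    have h7 : (lig B0 pos N : ℝ) ≤ 1 + 8 * (hea B0 pos N : ℝ) := by exact_mod_cast h6
    have h8 : (lig B0 pos N : ℝ) = ∑ d, (if ct B0 N (pos d) = 1 then (1 : ℝ) else 0) := by
      unfold lig
      rw [card_filter]
      push_cast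
      rfl
    have h9 : (hea B0 pos N : ℝ) = ∑ d, (if 2 ≤ ct B0 N (pos d) then (1 : ℝ) else 0) := by
      unfold hea
      rw [card_filter]
      push_cast
      rfl
    refine (sum_le_sum fun d _ => light_heavy (ct B0 N (pos d))).trans ?_
    rw [sum_sub_distrib, ← mul_sum, ← h8, ← h9]
    linarith
  have h2 : ∑ N ∈ T, μ N * ∑ d, ((ct B0 N (pos d) : ℝ) -
      5 * ((ct B0 N (pos d) : ℝ) * ((ct B0 N (pos d) : ℝ) - 1))) ≤ 1 := by
    calc _ ≤ ∑ N ∈ T, μ N * 1 :=
          sum_le_sum fun N hN => mul_le_mul_of_nonneg_left (h1 N hN) (hμ N)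
      _ = 1 := by rw [← Finset.sum_mul, hsum, one_mul]
  have h3 : ∑ N ∈ T, μ N * ∑ d, ((ct B0 N (pos d) : ℝ) -
      5 * ((ct B0 N (pos d) : ℝ) * ((ct B0 N (pos d) : ℝ) - 1))) =
      ∑ d, (∑ N ∈ T, μ N * (ct B0 N (pos d) : ℝ) -
        5 * ∑ N ∈ T, μ N * ((ct B0 N (pos d) : ℝ) * ((ct B0 N (pos d) : ℝ) - 1))) := by
    simp_rw [mul_sum]
    rw [sum_comm]
    refine sum_congr rfl fun d _ => ?_
    rw [← sum_sub_distrib]
    refine sum_congr rfl fun N _ => ?_
    ring
  rw [h3] at h2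
  have h4 : ∑ _d : Lf 8, ((1 : ℝ) / 41 - 5 * (1 / 380)) ≤
      ∑ d, (∑ N ∈ T, μ N * (ct B0 N (pos d) : ℝ) -
        5 * ∑ N ∈ T, μ N * ((ct B0 N (pos d) : ℝ) * ((ct B0 N (pos d) : ℝ) - 1))) := by
    refine sum_le_sum fun d _ => ?_
    obtain ⟨h5, h6⟩ := hmom d
    linarith
  rw [sum_const, card_univ, hcardL, nsmul_eq_mul] at h4
  have h5 : (1 : ℝ) < ((256 : ℕ) : ℝ) * (1 / 41 - 5 * (1 / 380)) := by norm_num
  linarith

/-- the next prime after a prime with no prime strictly between -/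
theorem nth_next {p q k : ℕ} (hk : Nat.nth Nat.Prime k = p) (hq : q.Prime) (hpq : p < q)
    (hno : ∀ t, p < t → t < q → ¬ t.Prime) : Nat.nth Nat.Prime (k + 1) = q := by
  have hinf := Nat.infinite_setOf_prime
  have h1 : Nat.nth Nat.Prime k < Nat.nth Nat.Prime (k + 1) :=
    Nat.nth_strictMono hinf (Nat.lt_succ_self k)
  have h2 : (Nat.nth Nat.Prime (k + 1)).Prime := Nat.nth_mem_of_infinite hinf _
  rcases lt_trichotomy (Nat.nth Nat.Prime (k + 1)) q with h3 | h3 | h3
  · exact absurd h2 (hno _ (hk ▸ h1) h3)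
  · exact h3
  · exfalso
    obtain ⟨j, _, hj⟩ := Nat.exists_lt_card_nth_eq hq
    rw [← hj] at h3 hpq
    rw [← hk] at hpq
    have h4 : k < j := (Nat.nth_strictMono hinf).lt_iff_lt.1 hpq
    have h5 : j < k + 1 := (Nat.nth_strictMono hinf).lt_iff_lt.1 h3
    omega

/-- Three consecutive gaps: large, `u + O(1)`, large. -/
theorem pair_gaps (L c₀ : ℕ) (hL : 0 < L) (hc₀ : Nat.Coprime c₀ L) :
    ∃ T : ℕ, ∀ u D : ℕ, {n : ℕ | D < gap n ∧ |((gap (n + 1) : ℕ) : ℤ) - u| ≤ T ∧
      D < gap (n + 2) ∧ Nat.nth Nat.Prime (n + 1) ≡ c₀ [MOD L] ∧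
      Nat.nth Nat.Prime (n + 2) ≡ c₀ [MOD L]}.Infinite := by
  classical
  obtain ⟨T, hT⟩ := iso2_exists L c₀ hL hc₀
  refine ⟨4 * T + 1, fun u D => ?_⟩
  have hinf := Nat.infinite_setOf_prime
  set u' : ℕ := max u (2 * T + 1) with hu'
  have hu1 : u ≤ u' := le_max_left _ _
  have hu2 : 2 * T + 1 ≤ u' := le_max_right _ _
  have hu3 : u' ≤ u + (2 * T + 1) := by
    rw [hu']
    omega
  apply Set.infinite_of_forall_exists_gt
  intro m
  set D' : ℕ := D + u' + T + 1 with hD'
  obtain ⟨N, hN, hNc, a, ha, hab⟩ := hT ![0, (u' : ℤ)] D'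
    (D' + T + 3 + Nat.nth Nat.Prime (m + 3))
  obtain ⟨ha0, hp0, hL0⟩ := ha 0
  obtain ⟨ha1, hp1, hL1⟩ := ha 1
  have hx0 : (![0, (u' : ℤ)] : Fin 2 → ℤ) 0 = 0 := rfl
  have hx1 : (![0, (u' : ℤ)] : Fin 2 → ℤ) 1 = u' := rfl
  rw [hx0] at ha0
  rw [hx1] at ha1
  have b0 := abs_le.1 ha0
  have b1 := abs_le.1 ha1
  have hu1Z : (u : ℤ) ≤ u' := by exact_mod_cast hu1
  have hu2Z : 2 * (T : ℤ) + 1 ≤ u' := by exact_mod_cast hu2
  have hu3Z : (u' : ℤ) ≤ u + (2 * T + 1) := by exact_mod_cast hu3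
  have hD'Z : (D' : ℤ) = D + u' + T + 1 := by
    rw [hD']
    push_cast
    ring
  have hNZ : (D' : ℤ) + T + 3 + (Nat.nth Nat.Prime (m + 3) : ℕ) ≤ N := by exact_mod_cast hN
  have hm0 : (0 : ℤ) ≤ (Nat.nth Nat.Prime (m + 3) : ℕ) := Int.natCast_nonneg _
  have hD0 : (0 : ℤ) ≤ D := Int.natCast_nonneg _
  have hT0 : (0 : ℤ) ≤ T := Int.natCast_nonneg _
  obtain ⟨p, hp⟩ : ∃ p : ℕ, (p : ℤ) = N + a 0 :=
    ⟨((N : ℤ) + a 0).toNat, Int.toNat_of_nonneg (by linarith [b0.1])⟩
  obtain ⟨q, hq⟩ : ∃ q : ℕ, (q : ℤ) = N + a 1 :=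
    ⟨((N : ℤ) + a 1).toNat, Int.toNat_of_nonneg (by linarith [b1.1])⟩
  have hpp : p.Prime := by
    unfold PP at hp0
    rw [← hp, Int.toNat_natCast] at hp0
    exact hp0
  have hqp : q.Prime := by
    unfold PP at hp1
    rw [← hq, Int.toNat_natCast] at hp1
    exact hp1
  -- primes in the window
  have hwin : ∀ t : ℕ, t.Prime → (N : ℤ) - D' ≤ t → (t : ℤ) ≤ N + D' → t = p ∨ t = q := by
    intro t ht h1 h2
    have h3 : PP N ((t : ℤ) - N) := by
      unfold PP
      have e : (N : ℤ) + ((t : ℤ) - N) = t := by ring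
      rw [e, Int.toNat_natCast]
      exact ht
    obtain ⟨j, hj⟩ := hab ((t : ℤ) - N) (abs_le.2 ⟨by linarith, by linarith⟩) h3
    fin_cases j
    · left
      have h4 : (t : ℤ) - N = a 0 := hj
      have h5 : (t : ℤ) = p := by rw [hp]; linarith
      exact_mod_cast h5
    · right
      have h4 : (t : ℤ) - N = a 1 := hj
      have h5 : (t : ℤ) = q := by rw [hq]; linarith
      exact_mod_cast h5
  have hpq : p < q := by
    have : (p : ℤ) < q := by
      rw [hp, hq]
      linarith [b0.2, b1.1]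
    exact_mod_cast this
  obtain ⟨k, _, hk⟩ := Nat.exists_lt_card_nth_eq hpp
  have hk1 : Nat.nth Nat.Prime (k + 1) = q := by
    refine nth_next hk hqp hpq fun t h1 h2 ht => ?_
    have h1' : (p : ℤ) < t := by exact_mod_cast h1
    have h2' : (t : ℤ) < q := by exact_mod_cast h2
    rcases hwin t ht (by linarith [b0.1]) (by linarith [b1.2]) with h | h <;> omega
  have hkm : m + 3 < k := by
    have h1 : Nat.nth Nat.Prime (m + 3) < Nat.nth Nat.Prime k := by
      rw [hk]
      have : ((Nat.nth Nat.Prime (m + 3) : ℕ) : ℤ) < p := by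
        rw [hp]
        linarith [b0.1]
      exact_mod_cast this
    exact (Nat.nth_strictMono hinf).lt_iff_lt.1 h1
  obtain ⟨n, rfl⟩ : ∃ n, k = n + 1 := ⟨k - 1, by omega⟩
  have g1 : Nat.nth Nat.Prime n < p := by
    rw [← hk]
    exact Nat.nth_strictMono hinf (Nat.lt_succ_self n)
  have g2 : q < Nat.nth Nat.Prime (n + 1 + 1 + 1) := by
    rw [← hk1]
    exact Nat.nth_strictMono hinf (Nat.lt_succ_self _)
  have g3 : (Nat.nth Nat.Prime n).Prime := Nat.nth_mem_of_infinite hinf _
  have g4 : (Nat.nth Nat.Prime (n + 1 + 1 + 1)).Prime := Nat.nth_mem_of_infinite hinf _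
  have hmod : ∀ (a : ℤ) (t : ℕ), (t : ℤ) = N + a → (L : ℤ) ∣ a → t ≡ c₀ [MOD L] := by
    intro a t ht hLa
    have h1 : (t : ℤ) ≡ (N : ℤ) [ZMOD L] := by
      rw [Int.modEq_iff_dvd, ht]
      have e : (N : ℤ) - (N + a) = -a := by ring
      rw [e]
      exact (dvd_neg).2 hLa
    exact ((Int.natCast_modEq_iff).1 h1).trans hNc
  refine ⟨n, ⟨?_, ?_, ?_, ?_, ?_⟩, by omega⟩
  · unfold gap
    rw [hk]
    by_contra hcon
    push Not at hcon
    have h1 : (p : ℤ) - (Nat.nth Nat.Prime n : ℕ) ≤ D := by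
      have : p ≤ D + Nat.nth Nat.Prime n := by omega
      have h2 : (p : ℤ) ≤ ((D + Nat.nth Nat.Prime n : ℕ) : ℤ) := by exact_mod_cast this
      push_cast at h2
      linarith
    have g1' : ((Nat.nth Nat.Prime n : ℕ) : ℤ) < p := by exact_mod_cast g1
    rcases hwin _ g3 (by linarith [b0.1]) (by linarith [b0.2]) with h | h <;> omega
  · unfold gap
    have e1 : n + 1 + 1 = n + 1 + 1 := rfl
    rw [hk1, hk, Nat.cast_sub hpq.le, hp, hq, abs_le]
    push_cast
    constructor
    · linarith [b0.2, b1.1]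
    · linarith [b0.1, b1.2]
  · show D < Nat.nth Nat.Prime (n + 2 + 1) - Nat.nth Nat.Prime (n + 2)
    have e1 : Nat.nth Nat.Prime (n + 2) = q := hk1
    rw [e1]
    have g2' : q < Nat.nth Nat.Prime (n + 2 + 1) := g2
    have g4' : (Nat.nth Nat.Prime (n + 2 + 1)).Prime := g4
    by_contra hcon
    push Not at hcon
    have h1 : ((Nat.nth Nat.Prime (n + 2 + 1) : ℕ) : ℤ) ≤ q + D := by
      have : Nat.nth Nat.Prime (n + 2 + 1) ≤ q + D := by omega
      exact_mod_cast this
    have g2'' : (q : ℤ) < ((Nat.nth Nat.Prime (n + 2 + 1) : ℕ) : ℤ) := by exact_mod_cast g2'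
    rcases hwin _ g4' (by linarith [b1.1]) (by linarith [b1.2]) with h | h <;> omega
  · rw [hk]
    exact hmod _ p hp hL0
  · have e1 : Nat.nth Nat.Prime (n + 2) = q := hk1
    rw [e1]
    exact hmod _ q hq hL1

end Pool.Agent.H21.CG
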