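import Pool.Agent.H21.CG.Df
import Pool.Agent.H30.CP.Bins
import Pool.Agent.H30.CP.BinsZ
import Pool.Agent.H21.SH.Sv

/-!
Cells of small mean: first and second factorial moments of the number of primes in a cell, for the
sharp sieve, in a residue class modulo `L`.
-/

namespace Pool.Agent.H21.CG

open Finset Pool.Agent.H30.CP Pool.Agent.H21.SH Pool.Agent.H21.MT

open Classical in
theorem cells2_nat {ι : Type} [Fintype ι] [DecidableEq ι] [Nonempty ι] (m s l : ℕ) (e τ : ℝ)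
    (hcι : Fintype.card ι = m) (hs : 1 ≤ s) (he : 0 < e) (he1 : e ≤ 1 / 100) (hτ : 0 < τ)
    (hτ1 : (2 : ℝ) ^ l * τ ≤ 1 / 2) (hτ2 : (m : ℝ) * s * (((l : ℝ) + 1) * τ) ≤ e)
    (B : ι → Finset ℕ) (hcard : ∀ j, (B j).card = s) (hdisj : ∀ i j, i ≠ j → Disjoint (B i) (B j))
    (hadm : ∀ p : ℕ, p.Prime → ∃ a : ℕ, ∀ j, ∀ h ∈ B j, ¬ p ∣ a + h)
    (L c₀ : ℕ) (hL : 0 < L) (hcop : ∀ j, ∀ h ∈ B j, Nat.Coprime (c₀ + h) L) (D N0 : ℕ) :
    ∃ (T : Finset ℕ) (μ : ℕ → ℝ), (∀ N ∈ T, N0 < N ∧ N ≡ c₀ [MOD L] ∧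
        ∀ g ≤ D, (∀ j, g ∉ B j) → ¬ (N + g).Prime) ∧ (∀ N, 0 ≤ μ N) ∧ ∑ N ∈ T, μ N = 1 ∧
      ∀ j, (1 - 50 * e) * (s * psv e τ l) ≤
          ∑ N ∈ T, μ N * (((B j).filter (fun a => (N + a).Prime)).card : ℝ) ∧
        ∑ N ∈ T, μ N * ((((B j).filter (fun a => (N + a).Prime)).card : ℝ) *
          ((((B j).filter (fun a => (N + a).Prime)).card : ℝ) - 1)) ≤
          4 * (1 + 50 * e) ^ 2 * (s * psv e τ l) ^ 2 := by
  let I : Type := Σ j : ι, {h // h ∈ B j}
  have hne : Nonempty I := by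
    obtain ⟨j⟩ := (inferInstance : Nonempty ι)
    have h0 : (B j).Nonempty := by
      rw [← card_pos, hcard]
      omega
    obtain ⟨a, ha⟩ := h0
    exact ⟨⟨j, ⟨a, ha⟩⟩⟩
  let hh : I → ℕ := fun i => i.2.val
  have hinj : Function.Injective hh := by
    rintro ⟨j, a, ha⟩ ⟨j', a', ha'⟩ h
    have h1 : a = a' := h
    subst h1
    have h2 : j = j' := by
      by_contra h3
      have h4 := hdisj j j' h3
      exact (disjoint_left.1 h4 ha) ha'
    subst h2
    rfl
  obtain ⟨Q, b₀, hQ, hLQ, hbL, hcopQ, hkill⟩ := killL L c₀ hL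
    ((Finset.range (D + 1)).filter (fun g => ∀ j, g ∉ B j)) (univ.biUnion B) (by
      rw [Finset.disjoint_left]
      intro g hg hg'
      obtain ⟨j, _, hj⟩ := Finset.mem_biUnion.1 hg'
      exact (Finset.mem_filter.1 hg).2 j hj) (by
      intro a ha
      obtain ⟨j, _, hj⟩ := Finset.mem_biUnion.1 ha
      exact hcop j a hj)
  obtain ⟨T, μ, hT, hμ0, hμ1, hlow, hup⟩ := sieve2 e he he1 (I := I) hh hinj (by
    intro p hp
    obtain ⟨a, ha⟩ := hadm p hp
    exact ⟨a, fun i => ha i.1 i.2.val i.2.2⟩) (fun _ => τ) (fun _ => l)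
    (fun _ => hτ) (fun _ => hτ1) (by
      rw [sum_const, card_univ, nsmul_eq_mul]
      have h1 : (Fintype.card I : ℝ) = m * s := by
        have h2 : Fintype.card I = m * s := by
          rw [Fintype.card_sigma]
          simp only [Fintype.card_coe, hcard]
          rw [sum_const, card_univ, hcι, smul_eq_mul]
        rw [h2]
        push_cast
        ring
      rw [h1]
      exact hτ2) Q b₀ hQ (fun i => hcopQ _ (Finset.mem_biUnion.2
        ⟨i.1, Finset.mem_univ _, i.2.2⟩)) (N0 + Q)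
  refine ⟨T, μ, fun N hN => ?_, hμ0, hμ1, fun j => ?_⟩
  · have hTN := hT N hN
    refine ⟨by omega, (hTN.2.of_dvd hLQ).trans hbL, fun g hg hgB => ?_⟩
    exact hkill N (by omega) hTN.2 g
      (Finset.mem_filter.2 ⟨Finset.mem_range.2 (by omega), hgB⟩)
  · set p : ℝ := psv e τ l with hp
    set f : ℕ → ℕ → ℝ := fun a N => if (N + a).Prime then 1 else 0 with hf
    have hX : ∀ N, (((B j).filter (fun a => (N + a).Prime)).card : ℝ) = ∑ a ∈ B j, f a N := by
      intro N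
      rw [card_filter]
      push_cast
      rfl
    have hlow' : ∀ a ∈ B j, (1 - 50 * e) * p ≤ ∑ N ∈ T, μ N * f a N := by
      intro a ha
      have h1 := hlow ⟨j, ⟨a, ha⟩⟩
      refine h1.trans (le_of_eq ?_)
      rw [sum_filter]
      refine sum_congr rfl fun N _ => ?_
      simp only [hf]
      have e1 : hh ⟨j, ⟨a, ha⟩⟩ = a := rfl
      rw [e1]
      split_ifs
      · rw [mul_one]
      · rw [mul_zero]
    have hup' : ∀ a ∈ B j, ∀ a' ∈ B j, a ≠ a' →
        ∑ N ∈ T, μ N * (f a N * f a' N) ≤ 4 * (1 + 50 * e) ^ 2 * p ^ 2 := by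
      intro a ha a' ha' haa
      have hne' : (⟨j, ⟨a, ha⟩⟩ : I) ≠ ⟨j, ⟨a', ha'⟩⟩ := by
        intro h
        have h1 : hh ⟨j, ⟨a, ha⟩⟩ = hh ⟨j, ⟨a', ha'⟩⟩ := congrArg hh h
        exact haa h1
      have hm' : (⟨j, ⟨a, ha⟩⟩ : I) ∉ ({⟨j, ⟨a', ha'⟩⟩} : Finset I) := by
        simpa using hne'
      have h1 := hup ⟨j, ⟨a, ha⟩⟩ {⟨j, ⟨a', ha'⟩⟩} hm'
      rw [prod_insert hm', prod_singleton, card_singleton] at h1
      have h2 : (1 + 50 * e) ^ (1 + 1) * (4 * ((1 : ℕ) : ℝ)) ^ 1 * (p * p) =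
          4 * (1 + 50 * e) ^ 2 * p ^ 2 := by push_cast; ring
      rw [h2] at h1
      refine le_trans (le_of_eq ?_) h1
      rw [sum_filter]
      refine sum_congr rfl fun N _ => ?_
      have e1 : (∀ i ∈ insert (⟨j, ⟨a, ha⟩⟩ : I) ({(⟨j, ⟨a', ha'⟩⟩ : I)} : Finset I), (N + hh i).Prime) ↔
          ((N + a).Prime ∧ (N + a').Prime) := by
        constructor
        · intro h
          exact ⟨h _ (mem_insert_self _ _), h _ (mem_insert_of_mem (mem_singleton_self _))⟩
        · rintro ⟨h3, h4⟩ i hi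
          rcases mem_insert.1 hi with rfl | hi
          · exact h3
          · rw [mem_singleton.1 hi]
            exact h4
      simp only [hf]
      by_cases c1 : (N + a).Prime <;> by_cases c2 : (N + a').Prime
      · rw [if_pos c1, if_pos c2, if_pos (e1.2 ⟨c1, c2⟩)]
        ring
      · rw [if_pos c1, if_neg c2, if_neg (fun h => c2 (e1.1 h).2)]
        ring
      · rw [if_neg c1, if_neg (fun h => c1 (e1.1 h).1)]
        ring
      · rw [if_neg c1, if_neg (fun h => c1 (e1.1 h).1)]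
        ring
    constructor
    · simp_rw [hX, mul_sum]
      rw [sum_comm]
      have h1 := sum_le_sum hlow'
      rw [sum_const, hcard, nsmul_eq_mul] at h1
      refine le_trans (le_of_eq ?_) h1
      ring
    · have h1 : ∀ N, (((B j).filter (fun a => (N + a).Prime)).card : ℝ) *
          ((((B j).filter (fun a => (N + a).Prime)).card : ℝ) - 1) =
          ∑ a ∈ B j, ∑ a' ∈ B j, (if a = a' then 0 else f a N * f a' N) := by
        intro N
        rw [hX]
        have h2 : ∀ a ∈ B j, ∑ a' ∈ B j, (if a = a' then (0 : ℝ) else f a N * f a' N) =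
            (∑ a' ∈ B j, f a N * f a' N) - f a N := by
          intro a ha
          have h3 : ∀ a' ∈ B j, (if a = a' then (0 : ℝ) else f a N * f a' N) =
              f a N * f a' N - (if a = a' then f a N else 0) := by
            intro a' _
            by_cases haa : a = a'
            · subst haa
              rw [if_pos rfl, if_pos rfl]
              simp only [hf]
              split_ifs <;> simp
            · rw [if_neg haa, if_neg haa, sub_zero]
          rw [sum_congr rfl h3, sum_sub_distrib, sum_ite_eq, if_pos ha]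
        rw [sum_congr rfl h2, sum_sub_distrib]
        simp_rw [← mul_sum]
        rw [← sum_mul]
        ring
      simp_rw [h1, mul_sum]
      rw [sum_comm]
      have h2 : ∀ a ∈ B j, ∑ N ∈ T, ∑ a' ∈ B j, μ N * (if a = a' then 0 else f a N * f a' N) ≤
          s * (4 * (1 + 50 * e) ^ 2 * p ^ 2) := by
        intro a ha
        rw [sum_comm]
        have h3 : ∀ a' ∈ B j, ∑ N ∈ T, μ N * (if a = a' then 0 else f a N * f a' N) ≤
            4 * (1 + 50 * e) ^ 2 * p ^ 2 := by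
          intro a' ha'
          by_cases haa : a = a'
          · simp only [if_pos haa, mul_zero, sum_const_zero]
            positivity
          · simp only [if_neg haa]
            exact hup' a ha a' ha' haa
        refine (sum_le_sum h3).trans (le_of_eq ?_)
        rw [sum_const, hcard, nsmul_eq_mul]
      refine (sum_le_sum h2).trans (le_of_eq ?_)
      rw [sum_const, hcard, nsmul_eq_mul]
      ring

/-- parameters -/
private theorem pr_par (k : ℕ) (hk : 1 ≤ k) (e η : ℝ) (he : 0 < e) (he1 : e ≤ 1 / 100)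
    (hη : 0 < η) : ∃ l₀ : ℕ, ∀ l : ℕ, l₀ ≤ l → ∃ τ : ℝ, 0 < τ ∧ (2 : ℝ) ^ l * τ ≤ 1 / 2 ∧
      k * 2 ^ l * (((l : ℝ) + 1) * τ) = e ∧ 0 < psv e τ l ∧
      1 + 50 * e ≤ e * (2 ^ l * psv e τ l) ∧ k * ((1 + 50 * e) * psv e τ l) ≤ η := by
  have hbl : ∀ l : ℕ, 1 ≤ bl l ∧ bl l ≤ 3 / 2 := by
    intro l
    unfold bl
    have h1 : (1 / 2 : ℝ) ^ (l + 1) ≤ (1 / 2 : ℝ) ^ 1 :=
      pow_le_pow_of_le_one (by norm_num) (by norm_num) (by omega)
    have h2 : (0 : ℝ) < (1 / 2 : ℝ) ^ (l + 1) := by positivity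
    constructor <;> linarith
  have hk0 : (0 : ℝ) < k := by exact_mod_cast hk
  have hk1 : (1 : ℝ) ≤ k := by exact_mod_cast hk
  obtain ⟨l1, hl1⟩ := exists_nat_ge (12 * (k : ℝ) / e ^ 3)
  have hlim : Filter.Tendsto (fun n : ℕ => (n : ℝ) ^ 1 / (2 : ℝ) ^ n) Filter.atTop (nhds 0) :=
    tendsto_pow_const_div_const_pow_of_one_lt 1 (by norm_num)
  have h1 := hlim.eventually_lt_const (show (0 : ℝ) < η / 5 by positivity)
  obtain ⟨l2, hl2⟩ := Filter.eventually_atTop.1 h1
  refine ⟨l1 + l2 + 1, fun l hl => ⟨e / (k * 2 ^ l * ((l : ℝ) + 1)), by positivity, ?_, ?_, ?_, ?_, ?_⟩⟩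
  · have hl0 : (0 : ℝ) ≤ l := Nat.cast_nonneg l
    have h2 : (2 : ℝ) ^ l * (e / (k * 2 ^ l * ((l : ℝ) + 1))) = e / (k * ((l : ℝ) + 1)) := by
      field_simp
    rw [h2, div_le_iff₀ (by positivity)]
    nlinarith [mul_nonneg hk0.le hl0]
  · field_simp
  · obtain ⟨hb1, hb2⟩ := hbl l
    unfold psv
    have : 0 < bl l := by linarith
    positivity
  · obtain ⟨hb1, hb2⟩ := hbl l
    have hb0 : 0 < bl l := by linarith
    have hll : (l1 : ℝ) ≤ l := by
      have : l1 ≤ l := by omega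
      exact_mod_cast this
    have hl0 : (0 : ℝ) ≤ l := Nat.cast_nonneg l
    have h2 : e * (2 ^ l * psv e (e / (k * 2 ^ l * ((l : ℝ) + 1))) l) =
        e ^ 3 * ((l : ℝ) + 2) ^ 2 / (4 * bl l * k * ((l : ℝ) + 1)) := by
      unfold psv
      field_simp
    rw [h2, le_div_iff₀ (by positivity)]
    have h3 : 12 * (k : ℝ) ≤ l * e ^ 3 := by
      rw [div_le_iff₀ (by positivity)] at hl1
      refine hl1.trans ?_
      exact mul_le_mul_of_nonneg_right hll (by positivity)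
    calc (1 + 50 * e) * (4 * bl l * k * ((l : ℝ) + 1)) ≤
        2 * (4 * (3 / 2) * k * ((l : ℝ) + 1)) := by
          have : 1 + 50 * e ≤ 2 := by linarith
          gcongr
      _ = 12 * k * ((l : ℝ) + 1) := by ring
      _ ≤ l * e ^ 3 * ((l : ℝ) + 1) := by gcongr
      _ = e ^ 3 * (l * ((l : ℝ) + 1)) := by ring
      _ ≤ e ^ 3 * ((l : ℝ) + 2) ^ 2 := by
          have : (l : ℝ) * ((l : ℝ) + 1) ≤ ((l : ℝ) + 2) ^ 2 := by nlinarith
          gcongr
  · obtain ⟨hb1, hb2⟩ := hbl l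
    have hb0 : 0 < bl l := by linarith
    have hl1' : (1 : ℝ) ≤ l := by
      have : 1 ≤ l := by omega
      exact_mod_cast this
    have hl0 : (0 : ℝ) ≤ l := Nat.cast_nonneg l
    have h4 := hl2 l (by omega)
    rw [pow_one] at h4
    have h2 : k * ((1 + 50 * e) * psv e (e / (k * 2 ^ l * ((l : ℝ) + 1))) l) =
        (1 + 50 * e) * e ^ 2 * ((l : ℝ) + 2) ^ 2 / (4 * bl l * 2 ^ l * ((l : ℝ) + 1)) := by
      unfold psv
      field_simp
    rw [h2]
    have h5 : (1 + 50 * e) * e ^ 2 * ((l : ℝ) + 2) ^ 2 / (4 * bl l * 2 ^ l * ((l : ℝ) + 1)) ≤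
        5 * ((l : ℝ) / 2 ^ l) := by
      rw [← mul_div_assoc, div_le_div_iff₀ (by positivity) (by positivity)]
      have h6 : ((l : ℝ) + 2) ^ 2 ≤ 5 * l * ((l : ℝ) + 1) := by nlinarith
      have h7 : (1 + 50 * e) * e ^ 2 ≤ 4 := by nlinarith [sq_nonneg e]
      calc (1 + 50 * e) * e ^ 2 * ((l : ℝ) + 2) ^ 2 * 2 ^ l ≤
          4 * (5 * l * ((l : ℝ) + 1)) * 2 ^ l := by gcongr
        _ = 5 * l * (4 * 1 * 2 ^ l * ((l : ℝ) + 1)) := by ring
        _ ≤ 5 * l * (4 * bl l * 2 ^ l * ((l : ℝ) + 1)) := by gcongr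
    linarith

/-- the parameters of the cells: mean about `1/40` -/
theorem pr_cells (m : ℕ) (hm : 1 ≤ m) : ∃ (s l : ℕ) (e τ : ℝ), 1 ≤ s ∧ 0 < e ∧ e ≤ 1 / 100 ∧
    0 < τ ∧ (2 : ℝ) ^ l * τ ≤ 1 / 2 ∧ (m : ℝ) * s * (((l : ℝ) + 1) * τ) ≤ e ∧
    1 / 41 ≤ (1 - 50 * e) * (s * psv e τ l) ∧
    4 * (1 + 50 * e) ^ 2 * (s * psv e τ l) ^ 2 ≤ 1 / 380 := by
  obtain ⟨l, hl⟩ := pr_par m hm (1 / 10000) (1 / 4000) (by norm_num) (by norm_num) (by norm_num)
  obtain ⟨τ, h1, h2, h3, h4, h5, h6⟩ := hl l le_rfl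
  set p : ℝ := psv (1 / 10000) τ l with hp
  have hmR : (1 : ℝ) ≤ m := by exact_mod_cast hm
  have hp1 : p ≤ 1 / 4000 := by
    have h7 : p ≤ m * ((1 + 50 * (1 / 10000)) * p) := by nlinarith
    linarith
  have h2l : (1 : ℝ) ≤ 2 ^ l * p := by nlinarith
  set s : ℕ := ⌈(1 / 40) / p⌉₊ with hs
  have hs1 : (1 / 40) / p ≤ s := Nat.le_ceil _
  have hs2 : (s : ℝ) < (1 / 40) / p + 1 := Nat.ceil_lt_add_one (by positivity)
  have hsp1 : 1 / 40 ≤ s * p := by
    rw [div_le_iff₀ h4] at hs1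
    exact hs1
  have hsp2 : s * p ≤ 1 / 40 + 1 / 4000 := by
    have h8 : (s : ℝ) * p ≤ ((1 / 40) / p + 1) * p := mul_le_mul_of_nonneg_right hs2.le h4.le
    have h9 : ((1 / 40) / p + 1) * p = 1 / 40 + p := by
      field_simp
    linarith
  have hs0 : 1 ≤ s := by
    rw [Nat.one_le_iff_ne_zero]
    intro h0
    rw [h0] at hsp1
    norm_num at hsp1
  have hsl : (s : ℝ) ≤ 2 ^ l := by
    by_contra hcon
    push Not at hcon
    have : (2 : ℝ) ^ l * p < s * p := mul_lt_mul_of_pos_right hcon h4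
    linarith
  refine ⟨s, l, 1 / 10000, τ, hs0, by norm_num, by norm_num, h1, h2, ?_, ?_, ?_⟩
  · rw [← h3]
    gcongr
  · rw [← hp]
    nlinarith
  · rw [← hp]
    have h10 : (s * p) ^ 2 ≤ (1 / 40 + 1 / 4000) ^ 2 := by
      have : 0 ≤ s * p := by positivity
      gcongr
    nlinarith

open Classical in
/-- cells of mean about `1/40` -/
theorem cells2 (m : ℕ) (hm : 1 ≤ m) : ∃ s : ℕ, 1 ≤ s ∧ ∀ (ι : Type) [Fintype ι] [DecidableEq ι]
    (V : ι → Finset ℤ), Fintype.card ι = m → (∀ j, (V j).card = s) →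
    (∀ i j, i ≠ j → Disjoint (V i) (V j)) →
    (∀ p : ℕ, p.Prime → ∃ a : ℤ, ∀ j, ∀ h ∈ V j, ¬ (p : ℤ) ∣ a + h) →
    ∀ L c₀ : ℕ, 0 < L → (∀ j, ∀ h ∈ V j, (L : ℤ) ∣ h) → Nat.Coprime c₀ L → ∀ D N0 : ℕ,
    ∃ (T : Finset ℕ) (μ : ℕ → ℝ), (∀ N ∈ T, N0 < N ∧ N ≡ c₀ [MOD L] ∧
        ∀ b : ℤ, |b| ≤ D → PP N b → ∃ j, b ∈ V j) ∧
      (∀ N, 0 ≤ μ N) ∧ ∑ N ∈ T, μ N = 1 ∧
      ∀ j, 1 / 41 ≤ ∑ N ∈ T, μ N * (((V j).filter (fun b => PP N b)).card : ℝ) ∧
        ∑ N ∈ T, μ N * ((((V j).filter (fun b => PP N b)).card : ℝ) *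
          ((((V j).filter (fun b => PP N b)).card : ℝ) - 1)) ≤ 1 / 380 := by
  obtain ⟨s, l, e, τ, hs, he, he1, hτ, hτ1, hτ2, hF, hG⟩ := pr_cells m hm
  refine ⟨s, hs, fun ι _ _ V hcι hcard hdisj hadm L c₀ hL hdvd hc₀ D N0 => ?_⟩
  have : Nonempty ι := by
    rw [← Fintype.card_pos_iff, hcι]
    omega
  set S : ℕ := L * (D + ∑ j, ∑ b ∈ V j, b.natAbs) with hS
  have hSD : D ≤ S := by
    rw [hS]
    exact le_trans (Nat.le_add_right _ _) (Nat.le_mul_of_pos_left _ hL)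
  have hSb : ∀ j, ∀ b ∈ V j, b.natAbs ≤ S := by
    intro j b hb
    have h1 : b.natAbs ≤ ∑ b ∈ V j, b.natAbs :=
      Finset.single_le_sum (f := fun b : ℤ => b.natAbs) (fun _ _ => Nat.zero_le _) hb
    have h2 : ∑ b ∈ V j, b.natAbs ≤ ∑ j, ∑ b ∈ V j, b.natAbs :=
      Finset.single_le_sum (f := fun j => ∑ b ∈ V j, b.natAbs) (fun _ _ => Nat.zero_le _)
        (Finset.mem_univ j)
    have h3 : D + ∑ j, ∑ b ∈ V j, b.natAbs ≤ S := by
      rw [hS]
      exact Nat.le_mul_of_pos_left _ hL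
    omega
  have hLS : L ∣ S := ⟨_, rfl⟩
  have hnn : ∀ j, ∀ b ∈ V j, 0 ≤ b + S := by
    intro j b hb
    have := hSb j b hb
    omega
  have hinjS : ∀ j, Set.InjOn (fun b : ℤ => (b + (S : ℤ)).toNat) (V j) := by
    intro j a ha b hb hab
    have h1 := hnn j a ha
    have h2 := hnn j b hb
    have h3 : (a + (S : ℤ)).toNat = (b + (S : ℤ)).toNat := hab
    omega
  obtain ⟨T, μ, hT, hμ0, hμ1, hmom⟩ := cells2_nat m s l e τ hcι hs he he1 hτ hτ1 hτ2
    (fun j => (V j).image (fun b => (b + (S : ℤ)).toNat))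
    (by
      intro j
      rw [card_image_of_injOn (hinjS j), hcard])
    (by
      intro i j hij
      rw [disjoint_left]
      intro g hg hg'
      obtain ⟨a, ha, ha'⟩ := mem_image.1 hg
      obtain ⟨b, hb, hb'⟩ := mem_image.1 hg'
      have h1 := hnn i a ha
      have h2 := hnn j b hb
      have h3 : a = b := by omega
      subst h3
      exact disjoint_left.1 (hdisj i j hij) ha hb)
    (by
      intro p hp
      obtain ⟨a, ha⟩ := hadm p hp
      have hp0 : (0 : ℤ) < p := by exact_mod_cast hp.pos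
      refine ⟨((a - S) % (p : ℤ)).toNat, fun j h hh hdv => ?_⟩
      obtain ⟨b, hb, hb'⟩ := mem_image.1 hh
      apply ha j b hb
      have h1 : ((((a - S) % (p : ℤ)).toNat : ℕ) : ℤ) = (a - S) % (p : ℤ) :=
        Int.toNat_of_nonneg (Int.emod_nonneg _ hp0.ne')
      have h2 : (h : ℤ) = b + S := by
        rw [← hb']
        exact Int.toNat_of_nonneg (hnn j b hb)
      have h3 : (p : ℤ) ∣ ((((a - S) % (p : ℤ)).toNat + h : ℕ) : ℤ) := by exact_mod_cast hdv
      rw [Nat.cast_add, h1, h2] at h3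
      have h4 : (p : ℤ) ∣ (a - S) - (a - S) % (p : ℤ) := Int.dvd_self_sub_emod
      have h5 := dvd_add h3 h4
      have h6 : (a - S) % (p : ℤ) + (b + S) + ((a - S) - (a - S) % (p : ℤ)) = a + b := by ring
      rw [h6] at h5
      exact h5)
    L c₀ hL
    (by
      intro j h hh
      obtain ⟨b, hb, hb'⟩ := mem_image.1 hh
      have h2 : (h : ℤ) = b + S := by
        rw [← hb']
        exact Int.toNat_of_nonneg (hnn j b hb)
      have h3 : (L : ℤ) ∣ (h : ℤ) := by
        rw [h2]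
        exact dvd_add (hdvd j b hb) (by exact_mod_cast hLS)
      have h4 : L ∣ h := by exact_mod_cast h3
      obtain ⟨q, rfl⟩ := h4
      rw [Nat.Coprime, Nat.gcd_comm, ← Nat.Coprime]
      rw [Nat.coprime_add_mul_left_right]
      exact hc₀.symm)
    (D + S) N0
  have hPP : ∀ (N : ℕ) (j : ι), ((V j).filter (fun b => PP (N + S) b)).card =
      (((V j).image (fun b => (b + (S : ℤ)).toNat)).filter (fun a => (N + a).Prime)).card := by
    intro N j
    rw [filter_image, card_image_of_injOn]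
    · congr 1
      apply filter_congr
      intro b hb
      exact PP_shift (hnn j b hb)
    · exact (hinjS j).mono (fun b hb => (mem_filter.1 hb).1)
  refine ⟨T.image (fun N => N + S), fun N => μ (N - S), ?_, fun N => hμ0 _, ?_, ?_⟩
  · intro N hN
    obtain ⟨N', hN', rfl⟩ := mem_image.1 hN
    obtain ⟨h1, h2, h3⟩ := hT N' hN'
    refine ⟨by omega, ?_, ?_⟩
    · have h4 : N' + S ≡ c₀ + 0 [MOD L] := h2.add ((Nat.modEq_zero_iff_dvd).2 hLS)
      simpa using h4
    · intro b hb hp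
      have hb' := abs_le.1 hb
      have hbS : 0 ≤ b + S := by
        have : (D : ℤ) ≤ S := by exact_mod_cast hSD
        linarith [hb'.1]
      by_contra hcon
      push Not at hcon
      have h5 := h3 (b + S).toNat (by
        have : (b + S : ℤ) ≤ ((D + S : ℕ) : ℤ) := by
          push_cast
          linarith [hb'.2]
        omega) (by
        intro j hj
        obtain ⟨b', hb1, hb2⟩ := mem_image.1 hj
        have h6 := hnn j b' hb1
        have h7 : b' = b := by omega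
        subst h7
        exact hcon j hb1)
      exact h5 ((PP_shift hbS).1 hp)
  · rw [sum_image (fun a _ b _ hab => by
      have h : a + S = b + S := hab
      omega)]
    simp only [Nat.add_sub_cancel]
    exact hμ1
  · intro j
    obtain ⟨h1, h2⟩ := hmom j
    constructor
    · rw [sum_image (fun a _ b _ hab => by
        have h : a + S = b + S := hab
        omega)]
      simp only [Nat.add_sub_cancel, hPP]
      exact hF.trans h1
    · rw [sum_image (fun a _ b _ hab => by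
        have h : a + S = b + S := hab
        omega)]
      simp only [Nat.add_sub_cancel, hPP]
      exact h2.trans hG

end Pool.Agent.H21.CG
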