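import Pool.Agent.H21.CG.Df

/-!
[H21 CG RATIO]  Every element of `[0,∞]` is a limit point of the quotients of consecutive gaps.

Proof of `ratios` (case `L = 1`, `s = 0` or any).  For `α : ENNReal` finite, `α = a` real `≥ 0`: for `m` large take
`u = m`, `v = ⌊a m⌋`: infinitely many `n` with `gap n` within `C` of `m` and `gap (n+1)` within `C` of `a m` up to `1`, the
quotient differs from `a` by at most `(C + 1 + a C)/(m - C)`.  For `α = ∞`: `u = 0`, `v = m`: quotient `≥ (m - C)/C`.
(`gap n ≥ 1`.)  In both cases every neighbourhood of `α` contains the quotient for infinitely many `n`, i.e.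
`MapClusterPt` (`mapClusterPt_iff_frequently`, `Filter.frequently_atTop`).
-/

namespace Pool.Agent.H21.CG

open Finset Pool.Agent.H30.CP

private theorem ratio_gap_pos (n : ℕ) : 0 < gap n := by
  unfold gap
  have : Nat.nth Nat.Prime n < Nat.nth Nat.Prime (n + 1) :=
    (Nat.nth_strictMono Nat.infinite_setOfPred_prime) (Nat.lt_succ_self n)
  omega

open Filter in
theorem ratios (C : ℕ) (h : ∀ u v : ℕ, {n : ℕ | |(gap n : ℤ) - u| ≤ C ∧
      |(gap (n + 1) : ℤ) - v| ≤ C}.Infinite) (α : ENNReal) :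
    MapClusterPt α atTop (fun n : ℕ => (gap (n + 1) : ENNReal) / (gap n : ENNReal)) := by
  have hpos : ∀ n, (0 : ℝ) < gap n := fun n => by exact_mod_cast ratio_gap_pos n
  have hval : ∀ n, (gap (n + 1) : ENNReal) / (gap n : ENNReal) =
      ENNReal.ofReal ((gap (n + 1) : ℝ) / gap n) := by
    intro n
    rw [ENNReal.ofReal_div_of_pos (hpos n), ENNReal.ofReal_natCast, ENNReal.ofReal_natCast]
  have habs : ∀ (n u : ℕ), |(gap n : ℤ) - u| ≤ C → |(gap n : ℝ) - u| ≤ C := by
    intro n u hn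
    have : ((|(gap n : ℤ) - u| : ℤ) : ℝ) ≤ ((C : ℤ) : ℝ) := by exact_mod_cast hn
    simpa using this
  rw [mapClusterPt_iff_frequently]
  intro s hs
  rw [Nat.frequently_atTop_iff_infinite]
  by_cases hα : α = ⊤
  · subst hα
    obtain ⟨a, ha, has⟩ := ENNReal.nhds_top_basis.mem_iff.1 hs
    set R : ℝ := a.toReal with hR
    have haR : a = ENNReal.ofReal R := (ENNReal.ofReal_toReal ha.ne).symm
    have hR0 : 0 ≤ R := ENNReal.toReal_nonneg
    obtain ⟨M, hM⟩ := exists_nat_gt ((C : ℝ) + R * C)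
    refine (h 0 M).mono ?_
    rintro n ⟨h1, h2⟩
    have h1' := habs _ _ h1
    have h2' := habs _ _ h2
    rw [abs_le] at h1' h2'
    have hg := hpos n
    apply has
    show a < _
    rw [hval, haR, ENNReal.ofReal_lt_ofReal_iff (div_pos (hpos _) (hpos _)), lt_div_iff₀ hg]
    have h3 : R * (gap n : ℝ) ≤ R * C := by
      refine mul_le_mul_of_nonneg_left ?_ hR0
      have := h1'.2
      simp only [Nat.cast_zero, sub_zero] at this
      exact this
    linarith [h2'.1]
  · set a : ℝ := α.toReal with ha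
    have ha0 : 0 ≤ a := ENNReal.toReal_nonneg
    have haα : α = ENNReal.ofReal a := (ENNReal.ofReal_toReal hα).symm
    have hcont : ENNReal.ofReal ⁻¹' s ∈ nhds a := by
      apply ENNReal.continuous_ofReal.continuousAt.preimage_mem_nhds
      rw [← haα]
      exact hs
    obtain ⟨ε, hε, hball⟩ := Metric.mem_nhds_iff.1 hcont
    set K : ℝ := C + 1 + a * C with hK
    have hK0 : 0 < K := by positivity
    obtain ⟨m, hm⟩ := exists_nat_gt ((C : ℝ) + K / ε)
    refine (h m ⌊a * m⌋₊).mono ?_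
    rintro n ⟨h1, h2⟩
    have h1' := habs _ _ h1
    have h2' := habs _ _ h2
    have hg := hpos n
    show _ ∈ s
    rw [hval]
    apply hball
    rw [Metric.mem_ball, Real.dist_eq]
    have h3 : (gap (n + 1) : ℝ) / gap n - a = (gap (n + 1) - a * gap n) / gap n := by
      field_simp
    rw [h3, abs_div, abs_of_pos hg, div_lt_iff₀ hg]
    have hfl : (⌊a * m⌋₊ : ℝ) ≤ a * m := Nat.floor_le (by positivity)
    have hfl2 : a * m < (⌊a * m⌋₊ : ℝ) + 1 := Nat.lt_floor_add_one _
    have hgm : (m : ℝ) - C ≤ gap n := by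
      have := (abs_le.1 h1').1
      linarith
    have h4 : |(gap (n + 1) : ℝ) - a * gap n| ≤ K := by
      have h5 : a * |(gap n : ℝ) - m| ≤ a * C := mul_le_mul_of_nonneg_left h1' ha0
      have h6 : (gap (n + 1) : ℝ) - a * gap n = (gap (n + 1) - (⌊a * m⌋₊ : ℝ)) +
          ((⌊a * m⌋₊ : ℝ) - a * m) - a * (gap n - m) := by ring
      rw [h6]
      calc |(gap (n + 1) - (⌊a * m⌋₊ : ℝ)) + ((⌊a * m⌋₊ : ℝ) - a * m) - a * (gap n - m)|
          ≤ |(gap (n + 1) - (⌊a * m⌋₊ : ℝ)) + ((⌊a * m⌋₊ : ℝ) - a * m)| +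
            |a * (gap n - m)| := abs_sub _ _
        _ ≤ |(gap (n + 1) - (⌊a * m⌋₊ : ℝ))| + |((⌊a * m⌋₊ : ℝ) - a * m)| +
            |a * (gap n - m)| := by
            have := abs_add_le ((gap (n + 1) : ℝ) - (⌊a * m⌋₊ : ℝ)) ((⌊a * m⌋₊ : ℝ) - a * m)
            linarith
        _ ≤ C + 1 + a * C := by
            have h7 : |((⌊a * m⌋₊ : ℝ) - a * m)| ≤ 1 := by
              rw [abs_le]; constructor <;> linarith
            have h8 : |a * ((gap n : ℝ) - m)| ≤ a * C := by
              rw [abs_mul, abs_of_nonneg ha0]; exact h5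
            linarith
        _ = K := rfl
    have h9 : K < ε * ((m : ℝ) - C) := by
      have : K / ε < (m : ℝ) - C := by linarith
      rw [div_lt_iff₀ hε] at this
      linarith
    have h10 : ε * ((m : ℝ) - C) ≤ ε * gap n := mul_le_mul_of_nonneg_left hgm hε.le
    linarith

end Pool.Agent.H21.CG
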