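import Pool.Agent.H21.CG.Df

/-!
[H21 CG TREE]  Trees with one light cell and `k` subtrees at every node: the potential inequality.
-/

namespace Pool.Agent.H21.CG

open Finset Pool.Agent.H30.CP

variable {r k : ℕ}

theorem Iso.mono {c : ℕ → Fin r} {L c₀ T : ℕ} {x x₀ : Fin (k + 1) → ℤ} {D N : ℕ} (s : ℕ)
    (h : Iso c L c₀ T x D N) (hx : ∀ j, |x j - x₀ j| ≤ s) :
    Iso c L c₀ (T + s) x₀ D N := by
  have key : ∀ (b : ℤ) (j : Fin (k + 1)), |b - x j| ≤ T → |b - x₀ j| ≤ ((T + s : ℕ) : ℤ) := by
    intro b j h1
    have h2 := hx j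
    push_cast
    calc |b - x₀ j| = |(b - x j) + (x j - x₀ j)| := by congr 1; ring
      _ ≤ |b - x j| + |x j - x₀ j| := abs_add_le _ _
      _ ≤ T + s := add_le_add h1 h2
  obtain ⟨h1, a₀, i, h2, h3, h4, h5, h6⟩ := h
  refine ⟨h1, a₀, i, key _ _ h2, h3, h4, fun b hb hp => ?_, fun j => ?_⟩
  · obtain ⟨h7, h8⟩ := h5 b hb hp
    refine ⟨h7, ?_⟩
    rcases h8 with h8 | ⟨j, h8⟩
    · exact Or.inl h8
    · exact Or.inr ⟨j, key _ _ h8⟩
  · obtain ⟨b, h7, h8⟩ := h6 j
    exact ⟨b, key _ _ h7, h8⟩

/-- separated bad vectors -/
theorem iso_sep {c : ℕ → Fin r} {L c₀ : ℕ}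
    (hbad : ∀ T : ℕ, ∃ x : Fin (k + 1) → ℤ, ∃ D N0 : ℕ, ∀ N ≥ N0, ¬ Iso c L c₀ T x D N)
    (W : ℕ) (hW : 0 < W) (T G : ℕ) :
    ∃ x : Fin (k + 1) → ℤ, (∀ j, (W : ℤ) ∣ x j) ∧ (∀ i j, i ≠ j → (G : ℤ) < |x i - x j|) ∧
      ∃ D N0 : ℕ, ∀ N ≥ N0, ¬ Iso c L c₀ T x D N := by
  set V : ℕ := W * (G + 1) with hV
  have hV0 : 0 < V := Nat.mul_pos hW (Nat.succ_pos _)
  obtain ⟨x₀, D, N0, hx₀⟩ := hbad (T + V * (k + 1))
  obtain ⟨x, h1, h2, h3⟩ := sep_exists (k + 1) V (Nat.succ_pos k) hV0 x₀
  refine ⟨x, fun j => ?_, fun i j hij => ?_, D, N0, fun N hN hg => hx₀ N hN ?_⟩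
  · have : (W : ℤ) ∣ (V : ℤ) := by
      rw [hV]
      push_cast
      exact dvd_mul_right _ _
    exact this.trans (h2 j)
  · have h4 := h3 i j hij
    have h5 : G + 1 ≤ V := Nat.le_mul_of_pos_left _ hW
    have h6 : ((G + 1 : ℕ) : ℤ) ≤ (V : ℤ) := by exact_mod_cast h5
    push_cast at h6
    linarith
  · refine hg.mono (V * (k + 1)) (fun j => ?_)
    have := h1 j
    push_cast at this ⊢
    exact this

theorem sum_Ix (k n : ℕ) (f : Ix k (n + 1) → ℝ) : ∑ d : Ix k (n + 1), f d =
    f (none : Option (Fin k × Ix k n)) +
      ∑ j : Fin k, ∑ d : Ix k n, f (some (j, d) : Option (Fin k × Ix k n)) := by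
  have h := Fintype.sum_option (α := Fin k × Ix k n) (M := ℝ) f
  rw [Fintype.sum_prod_type] at h
  exact h

/-- the colours of the primes in the cells -/
def Al (c : ℕ → Fin r) (B0 : Finset ℤ) {ι : Type} (pos : ι → ℤ) (N : ℕ) (i : Fin r) : Prop :=
  ∃ d, ∃ β ∈ B0, PP N (β + pos d) ∧ c ((N : ℤ) + (β + pos d)).toNat = i

/-- the cell at `b` -/
def cell (B0 : Finset ℤ) (b : ℤ) : Finset ℤ := B0.image (fun β => β + b)

theorem mem_cell {B0 : Finset ℤ} {b y : ℤ} : y ∈ cell B0 b ↔ ∃ β ∈ B0, β + b = y := by
  unfold cell
  rw [mem_image]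

open Classical in
/-- the potential inequality for large `N` -/
def Pot (c : ℕ → Fin r) (L c₀ : ℕ) (B0 : Finset ℤ) {ι : Type} [Fintype ι] (pos : ι → ℤ)
    (ω : ι → ℝ) : Prop :=
  ∃ D N0 : ℕ, ∀ N ≥ N0, N ≡ c₀ [MOD L] →
    (∀ b : ℤ, |b| ≤ D → PP N b → ∃ d, ∃ β ∈ B0, b = β + pos d) →
    ∑ d, (if One N (cell B0 (pos d)) then ω d else 0) ≤
      ((univ.filter (fun i : Fin r => Al c B0 pos N i)).card : ℝ)

theorem pot_exists {c : ℕ → Fin r} {L c₀ : ℕ} (hk : 1 ≤ k)
    (hbad : ∀ T : ℕ, ∃ x : Fin (k + 1) → ℤ, ∃ D N0 : ℕ, ∀ N ≥ N0, ¬ Iso c L c₀ T x D N)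
    (W : ℕ) (hW : 0 < W) (hLW : L ∣ W) (B0 : Finset ℤ) (hB0 : ∀ β ∈ B0, (W : ℤ) ∣ β) :
    ∀ n : ℕ, ∃ (pos : Ix k n → ℤ) (ω : Ix k n → ℝ), Pot c L c₀ B0 pos ω ∧ (∀ d, 0 ≤ ω d) ∧
      ∑ d, ω d = n / k ∧ (∀ d, (W : ℤ) ∣ pos d) ∧
      ∀ d d', d ≠ d' → ∀ β ∈ B0, ∀ β' ∈ B0, β + pos d ≠ β' + pos d' := by
  classical
  intro n
  have hkR : (1 : ℝ) ≤ k := by exact_mod_cast hk
  induction n with
  | zero =>
    refine ⟨fun d => d.elim, fun d => d.elim, ⟨0, 0, fun N _ _ _ => ?_⟩, fun d => d.elim, ?_,
      fun d => d.elim, fun d => d.elim⟩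
    · have h : ∑ d : Ix k 0, (if One N (cell B0 ((fun d : Ix k 0 => (d.elim : ℤ)) d)) then
          ((fun d : Ix k 0 => (d.elim : ℝ)) d) else 0) = 0 :=
        Finset.sum_eq_zero fun d _ => d.elim
      rw [h]
      positivity
    · have h : ∑ d : Ix k 0, ((fun d : Ix k 0 => (d.elim : ℝ)) d) = 0 :=
        Finset.sum_eq_zero fun d _ => d.elim
      rw [h]
      simp
  | succ n ih =>
    obtain ⟨pos, ω, ⟨D, N0, hpot⟩, hω0, hω1, hposW, hposD⟩ := ih
    -- a bound for the tree
    set R : ℕ := ∑ d : Ix k n, ∑ β ∈ B0, (β + pos d).natAbs + ∑ β ∈ B0, β.natAbs with hR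
    have hRb : ∀ d, ∀ β ∈ B0, |β + pos d| ≤ R := by
      intro d β hβ
      have h1 : (β + pos d).natAbs ≤ ∑ β ∈ B0, (β + pos d).natAbs :=
        Finset.single_le_sum (f := fun β : ℤ => (β + pos d).natAbs) (fun _ _ => Nat.zero_le _) hβ
      have h2 : ∑ β ∈ B0, (β + pos d).natAbs ≤ ∑ d : Ix k n, ∑ β ∈ B0, (β + pos d).natAbs :=
        Finset.single_le_sum (f := fun d => ∑ β ∈ B0, (β + pos d).natAbs)
          (fun _ _ => Nat.zero_le _) (Finset.mem_univ d)
      have h3 : (β + pos d).natAbs ≤ R := by omega
      rw [Int.abs_eq_natAbs]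
      exact_mod_cast h3
    have hR0 : ∀ β ∈ B0, |β| ≤ R := by
      intro β hβ
      have h1 : β.natAbs ≤ ∑ β ∈ B0, β.natAbs :=
        Finset.single_le_sum (f := fun β : ℤ => β.natAbs) (fun _ _ => Nat.zero_le _) hβ
      have h3 : β.natAbs ≤ R := by omega
      rw [Int.abs_eq_natAbs]
      exact_mod_cast h3
    obtain ⟨x, hxW, hxG, Dx, Nx, hx⟩ := iso_sep hbad W hW R (2 * R + D)
    set X : ℕ := ∑ j, (x j).natAbs with hX
    have hXb : ∀ j, |x j| ≤ X := by
      intro j
      have h1 : (x j).natAbs ≤ X :=
        Finset.single_le_sum (f := fun j => (x j).natAbs) (fun _ _ => Nat.zero_le _)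
          (Finset.mem_univ j)
      rw [Int.abs_eq_natAbs]
      exact_mod_cast h1
    have hLWz : (L : ℤ) ∣ (W : ℤ) := by exact_mod_cast hLW
    have hLx : ∀ j, (L : ℤ) ∣ x j := fun j => dvd_trans hLWz (hxW j)
    let pos' : Ix k (n + 1) → ℤ := fun o => Option.elim (α := Fin k × Ix k n) o (x 0)
      (fun p => x p.1.succ + pos p.2)
    let ω' : Ix k (n + 1) → ℝ := fun o => Option.elim (α := Fin k × Ix k n) o (1 / k)
      (fun p => ω p.2 / k)
    have hp0 : pos' (none : Option (Fin k × Ix k n)) = x 0 := rfl
    have hp1 : ∀ j d, pos' (some (j, d) : Option (Fin k × Ix k n)) = x j.succ + pos d :=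
      fun _ _ => rfl
    have hw0 : ω' (none : Option (Fin k × Ix k n)) = 1 / k := rfl
    have hw1 : ∀ j d, ω' (some (j, d) : Option (Fin k × Ix k n)) = ω d / k := fun _ _ => rfl
    have hcases : ∀ o : Ix k (n + 1), o = (none : Option (Fin k × Ix k n)) ∨
        ∃ j d, o = (some (j, d) : Option (Fin k × Ix k n)) := by
      intro o
      rcases o with _ | ⟨j, d⟩
      · exact Or.inl rfl
      · exact Or.inr ⟨j, d, rfl⟩
    refine ⟨pos', ω', ⟨max Dx (D + X), max Nx (N0 + X), ?_⟩, ?_, ?_, ?_, ?_⟩
    · intro N hN hNc hex
      -- the children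
      have hchild : ∀ j : Fin k, ∑ d, (if One N (cell B0 (x j.succ + pos d)) then ω d else 0) ≤
          ((univ.filter (fun i : Fin r =>
            Al c B0 (fun d : Ix k n => x j.succ + pos d) N i)).card : ℝ) := by
        intro j
        have hNX : (X : ℤ) ≤ N := by
          have h1 : N0 + X ≤ max Nx (N0 + X) := le_max_right _ _
          have h2 : X ≤ N := by omega
          exact_mod_cast h2
        have hxj := abs_le.1 (hXb j.succ)
        obtain ⟨N', hN'⟩ : ∃ N' : ℕ, (N' : ℤ) = N + x j.succ :=
          ⟨((N : ℤ) + x j.succ).toNat, Int.toNat_of_nonneg (by linarith)⟩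
        have hcast : ∀ b : ℤ, (N' : ℤ) + b = (N : ℤ) + (x j.succ + b) := by
          intro b
          rw [hN']
          ring
        have hPP : ∀ b : ℤ, PP N' b ↔ PP N (x j.succ + b) := by
          intro b
          unfold PP
          rw [hcast]
        have hOne : ∀ d, One N' (cell B0 (pos d)) ↔ One N (cell B0 (x j.succ + pos d)) := by
          intro d
          unfold One
          constructor
          · rintro ⟨b, hb, hbp, hu⟩
            obtain ⟨β, hβ, rfl⟩ := mem_cell.1 hb
            refine ⟨β + (x j.succ + pos d), mem_cell.2 ⟨β, hβ, rfl⟩, ?_, ?_⟩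
            · rw [hPP] at hbp
              have e : β + (x j.succ + pos d) = x j.succ + (β + pos d) := by ring
              rw [e]
              exact hbp
            · intro b' hb' hbp'
              obtain ⟨β', hβ', rfl⟩ := mem_cell.1 hb'
              have h1 := hu (β' + pos d) (mem_cell.2 ⟨β', hβ', rfl⟩) (by
                rw [hPP]
                have e : x j.succ + (β' + pos d) = β' + (x j.succ + pos d) := by ring
                rw [e]
                exact hbp')
              linarith
          · rintro ⟨b, hb, hbp, hu⟩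
            obtain ⟨β, hβ, rfl⟩ := mem_cell.1 hb
            refine ⟨β + pos d, mem_cell.2 ⟨β, hβ, rfl⟩, ?_, ?_⟩
            · rw [hPP]
              have e : x j.succ + (β + pos d) = β + (x j.succ + pos d) := by ring
              rw [e]
              exact hbp
            · intro b' hb' hbp'
              obtain ⟨β', hβ', rfl⟩ := mem_cell.1 hb'
              rw [hPP] at hbp'
              have h1 := hu (β' + (x j.succ + pos d)) (mem_cell.2 ⟨β', hβ', rfl⟩) (by
                have e : β' + (x j.succ + pos d) = x j.succ + (β' + pos d) := by ring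
                rw [e]
                exact hbp')
              linarith
        have hAl : ∀ i, Al c B0 pos N' i ↔
            Al c B0 (fun d : Ix k n => x j.succ + pos d) N i := by
          intro i
          unfold Al
          refine exists_congr fun d => exists_congr fun β => and_congr_right fun _ => ?_
          rw [hPP, hcast]
          have e : x j.succ + (β + pos d) = β + (x j.succ + pos d) := by ring
          rw [e]
        have h := hpot N' ?_ ?_ ?_
        · simp only [hOne, hAl] at h
          exact h
        · have h1 : N0 + X ≤ N := le_trans (le_max_right _ _) hN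
          have h2 : ((N0 + X : ℕ) : ℤ) ≤ N := by exact_mod_cast h1
          push_cast at h2
          have h3 : (N0 : ℤ) ≤ N' := by
            rw [hN']
            linarith
          exact_mod_cast h3
        · have h1 : (N' : ℤ) ≡ (N : ℤ) [ZMOD L] := by
            rw [Int.modEq_iff_dvd, hN']
            have e : (N : ℤ) - (N + x j.succ) = -(x j.succ) := by ring
            rw [e]
            exact (dvd_neg).2 (hLx j.succ)
          have h2 : N' ≡ N [MOD L] := (Int.natCast_modEq_iff).1 h1
          exact h2.trans hNc
        · intro b hb hp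
          rw [hPP] at hp
          obtain ⟨o, β, hβ, he⟩ := hex (x j.succ + b) (by
            have h1 : D + X ≤ max Dx (D + X) := le_max_right _ _
            have h2 : ((D + X : ℕ) : ℤ) ≤ ((max Dx (D + X) : ℕ) : ℤ) := by exact_mod_cast h1
            refine le_trans ?_ h2
            push_cast
            have h3 := abs_add_le (x j.succ) b
            have h4 := hXb j.succ
            linarith) hp
          have hR00 : (0 : ℤ) ≤ R := Int.natCast_nonneg _
          rcases hcases o with rfl | ⟨j', d, rfl⟩
          · exfalso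
            rw [hp0] at he
            have h1 := hxG 0 j.succ (Fin.succ_ne_zero j).symm
            have e : x 0 - x j.succ = b - β := by linarith
            rw [e] at h1
            have h3 := abs_sub b β
            have h4 := hR0 β hβ
            push_cast at h1
            linarith
          · rw [hp1] at he
            by_cases hj : j' = j
            · subst hj
              exact ⟨d, β, hβ, by linarith⟩
            · exfalso
              have h1 := hxG j'.succ j.succ (fun h => hj (Fin.succ_injective _ h))
              have e : x j'.succ - x j.succ = b - (β + pos d) := by linarith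
              rw [e] at h1
              have h3 := abs_sub b (β + pos d)
              have h4 := hRb d β hβ
              push_cast at h1
              linarith
      -- the colours
      set A : Finset (Fin r) := univ.filter (fun i : Fin r => Al c B0 pos' N i) with hA
      set Aj : Fin k → Finset (Fin r) := fun j => univ.filter (fun i : Fin r =>
        Al c B0 (fun d : Ix k n => x j.succ + pos d) N i) with hAj
      have hsub : ∀ j, Aj j ⊆ A := by
        intro j i hi
        rw [hAj, mem_filter] at hi
        rw [hA, mem_filter]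
        obtain ⟨d, β, hβ, hp, hc⟩ := hi.2
        exact ⟨mem_univ _, (some (j, d) : Option (Fin k × Ix k n)), β, hβ, hp, hc⟩
      have hmain : (if One N (cell B0 (x 0)) then (1 : ℝ) else 0) + ∑ j, ((Aj j).card : ℝ) ≤
          k * (A.card : ℝ) := by
        by_cases hO : One N (cell B0 (x 0))
        · rw [if_pos hO]
          obtain ⟨a₀, ha₀, hpa, hu⟩ := hO
          obtain ⟨β₀, hβ₀, hea⟩ := mem_cell.1 ha₀
          set i := c ((N : ℤ) + a₀).toNat with hi
          have hiA : i ∈ A := by
            rw [hA, mem_filter]
            refine ⟨mem_univ _, (none : Option (Fin k × Ix k n)), β₀, hβ₀, ?_, ?_⟩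
            · rw [hp0, hea]
              exact hpa
            · rw [hp0, hea]
          -- some child has no prime of colour `i`
          obtain ⟨j₁, hj₁⟩ : ∃ j, i ∉ Aj j := by
            by_contra hcon
            push Not at hcon
            refine hx N (le_trans (le_max_left _ _) hN) ⟨hNc, a₀, i, ?_, hpa, rfl, ?_, ?_⟩
            · have e : a₀ - x 0 = β₀ := by linarith
              rw [e]
              exact hR0 β₀ hβ₀
            · intro b hb hp
              obtain ⟨o, β, hβ, he⟩ := hex b (hb.trans (by
                have : Dx ≤ max Dx (D + X) := le_max_left _ _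
                exact_mod_cast this)) hp
              rcases hcases o with rfl | ⟨j', d, rfl⟩
              · rw [hp0] at he
                refine ⟨?_, Or.inl (hu b (mem_cell.2 ⟨β, hβ, he.symm⟩) hp)⟩
                rw [he]
                exact dvd_add (hLWz.trans (hB0 β hβ)) (hLx _)
              · rw [hp1] at he
                refine ⟨?_, Or.inr ⟨j', ?_⟩⟩
                · rw [he]
                  exact dvd_add (hLWz.trans (hB0 β hβ)) (dvd_add (hLx _) (hLWz.trans (hposW _)))
                · have e : b - x j'.succ = β + pos d := by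
                    rw [he]
                    ring
                  rw [e]
                  exact hRb d β hβ
            · intro j
              have h1 := hcon j
              rw [hAj, mem_filter] at h1
              obtain ⟨d, β, hβ, hp, hc⟩ := h1.2
              refine ⟨β + (x j.succ + pos d), ?_, hp, hc⟩
              have e : β + (x j.succ + pos d) - x j.succ = β + pos d := by ring
              rw [e]
              exact hRb d β hβ
          have h1 : (Aj j₁).card + 1 ≤ A.card := by
            have h2 : Aj j₁ ⊆ A.erase i := by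
              intro i' hi'
              rw [mem_erase]
              exact ⟨fun h => hj₁ (h ▸ hi'), hsub j₁ hi'⟩
            have h3 := card_le_card h2
            rw [card_erase_of_mem hiA] at h3
            have h4 : 0 < A.card := card_pos.2 ⟨i, hiA⟩
            omega
          have h2 : ∀ j, (Aj j).card ≤ A.card := fun j => card_le_card (hsub j)
          have h3 : ∑ j, (Aj j).card + 1 ≤ k * A.card := by
            have h4 : ∑ j, (Aj j).card = (Aj j₁).card + ∑ j ∈ univ.erase j₁, (Aj j).card :=
              (Finset.add_sum_erase _ _ (mem_univ j₁)).symm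
            have h5 : ∑ j ∈ univ.erase j₁, (Aj j).card ≤ (k - 1) * A.card := by
              refine (Finset.sum_le_sum fun j _ => h2 j).trans (le_of_eq ?_)
              rw [sum_const, card_erase_of_mem (mem_univ _), card_univ, Fintype.card_fin,
                smul_eq_mul]
            have h6 : k * A.card = (k - 1) * A.card + A.card := by
              have : k = (k - 1) + 1 := by omega
              conv_lhs => rw [this, add_mul, one_mul]
            omega
          have h4 : ((∑ j, (Aj j).card + 1 : ℕ) : ℝ) ≤ ((k * A.card : ℕ) : ℝ) := by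
            exact_mod_cast h3
          push_cast at h4
          linarith
        · rw [if_neg hO, zero_add]
          have h2 : ∀ j, ((Aj j).card : ℝ) ≤ A.card := fun j => by
            exact_mod_cast card_le_card (hsub j)
          refine (Finset.sum_le_sum fun j _ => h2 j).trans (le_of_eq ?_)
          rw [sum_const, card_univ, Fintype.card_fin, nsmul_eq_mul]
      rw [sum_Ix]
      have h1 : (if One N (cell B0 (pos' (none : Option (Fin k × Ix k n)))) then
          ω' (none : Option (Fin k × Ix k n)) else 0) =
          (if One N (cell B0 (x 0)) then (1 : ℝ) else 0) / k := by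
        rw [hp0, hw0]
        split_ifs <;> simp
      have h2 : ∀ j : Fin k, ∑ d : Ix k n,
          (if One N (cell B0 (pos' (some (j, d) : Option (Fin k × Ix k n)))) then
            ω' (some (j, d) : Option (Fin k × Ix k n)) else 0) ≤ ((Aj j).card : ℝ) / k := by
        intro j
        have h3 : ∑ d : Ix k n,
          (if One N (cell B0 (pos' (some (j, d) : Option (Fin k × Ix k n)))) then
            ω' (some (j, d) : Option (Fin k × Ix k n)) else 0) =
            (∑ d, (if One N (cell B0 (x j.succ + pos d)) then ω d else 0)) / k := by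
          rw [Finset.sum_div]
          refine Finset.sum_congr rfl fun d _ => ?_
          rw [hp1, hw1]
          split_ifs <;> simp
        rw [h3]
        have h4 := hchild j
        gcongr
      have h3 := Finset.sum_le_sum (fun j (_ : j ∈ (univ : Finset (Fin k))) => h2 j)
      rw [← Finset.sum_div] at h3
      have h4 : ((if One N (cell B0 (x 0)) then (1 : ℝ) else 0) + ∑ j, ((Aj j).card : ℝ)) / k ≤
          A.card := by
        rw [div_le_iff₀ (by linarith)]
        linarith
      rw [add_div] at h4
      rw [h1]
      linarith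
    · intro o
      rcases hcases o with rfl | ⟨j, d, rfl⟩
      · rw [hw0]
        positivity
      · rw [hw1]
        have := hω0 d
        positivity
    · rw [sum_Ix, hw0]
      have h1 : ∑ j : Fin k, ∑ d : Ix k n, ω' (some (j, d) : Option (Fin k × Ix k n)) = n / k := by
        have h2 : ∀ j : Fin k, ∑ d : Ix k n, ω' (some (j, d) : Option (Fin k × Ix k n)) =
            (n / k) / k := by
          intro j
          rw [← hω1, Finset.sum_div]
          exact Finset.sum_congr rfl fun d _ => hw1 j d
        rw [Finset.sum_congr rfl fun j _ => h2 j, sum_const, card_univ, Fintype.card_fin,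
          nsmul_eq_mul]
        field_simp
      rw [h1]
      push_cast
      ring
    · intro o
      rcases hcases o with rfl | ⟨j, d, rfl⟩
      · rw [hp0]
        exact hxW 0
      · rw [hp1]
        exact dvd_add (hxW _) (hposW _)
    · intro o o' hoo β hβ β' hβ' he
      have hD0 : (0 : ℤ) ≤ D := Int.natCast_nonneg _
      rcases hcases o with rfl | ⟨j, d, rfl⟩ <;> rcases hcases o' with rfl | ⟨j', d', rfl⟩
      · exact hoo rfl
      · rw [hp0, hp1] at he
        have h1 := hxG 0 j'.succ (Fin.succ_ne_zero j').symm
        have e : x 0 - x j'.succ = (β' + pos d') - β := by linarith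
        rw [e] at h1
        have h3 := abs_sub (β' + pos d') β
        have h4 := hRb d' β' hβ'
        have h5 := hR0 β hβ
        push_cast at h1
        linarith
      · rw [hp0, hp1] at he
        have h1 := hxG j.succ 0 (Fin.succ_ne_zero j)
        have e : x j.succ - x 0 = β' - (β + pos d) := by linarith
        rw [e] at h1
        have h3 := abs_sub β' (β + pos d)
        have h4 := hRb d β hβ
        have h5 := hR0 β' hβ'
        push_cast at h1
        linarith
      · rw [hp1, hp1] at he
        by_cases hj : j = j'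
        · subst hj
          refine hposD d d' (fun h => hoo (by rw [h])) β hβ β' hβ' ?_
          linarith
        · have h1 := hxG j.succ j'.succ (fun h => hj (Fin.succ_injective _ h))
          have e : x j.succ - x j'.succ = (β' + pos d') - (β + pos d) := by linarith
          rw [e] at h1
          have h2 := hRb d β hβ
          have h3 := hRb d' β' hβ'
          have h4 := abs_sub (β' + pos d') (β + pos d)
          push_cast at h1
          linarith

end Pool.Agent.H21.CG
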